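import Pool.Agent.Work.MP_db9399_ts_helper26.Lg7

/-!
# MP_db9399, TSPLIT, block LGT: assembly of the light part (helper26)
-/

set_option autoImplicit false

namespace Pool.Agent.Work.MP_db9399_ts.helper26

open Finset Classical
open Pool.Agent.Work.MP_db9399_all (nb)
open Pool.Agent.Work.MP_db9399_clj.helper75 (OO blk nB eE)
open Pool.Agent.Work.MP_db9399_ts

universe u

section kinds
variable {W B τ τ' τ'' : Type u} [Fintype W] [Fintype B] [Fintype τ] [Fintype τ'] [Fintype τ'']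

/-- the output for one kind of classes -/
theorem one_kind (hFPT : Stmt_FPT.{u}) (hFHB : Stmt_FHB.{u}) (hFRW : Stmt_FRW.{u}) (g M : ℕ)
    (C σ1 ε1 ε' c : ℝ) (hg : g = 2 ∨ g = 3) (hC : 1 ≤ C) (hσ1 : 0 < σ1) (hε1 : 0 < ε1)
    (hε' : 0 < ε') (hε'1 : ε' ≤ 1) (hM : M * ε' ≤ ε1) (hc : 0 < c) (hc1 : c ≤ 1 / 100) :
    ∃ d0 : ℕ, ∀ {W B τ' : Type u} [Fintype W] [Fintype B] [Fintype τ'] (X : Dat W B)
      (Ty : Kd → Prop) (gr : W → Fin 3) (σ : ℝ) (off : Fin g → W → ℝ) (L : W → Fin g)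
      (w' : Fin g → Sym2 W → ℝ) (β : τ' → W → ℝ) (A : ℝ), d0 ≤ X.d → 1 ≤ X.d → σ1 ≤ σ → σ ≤ 1 →
      Env X M C (1 / 64) (1 / 64) c → Grp X c gr →
      (Ty = (fun κ => κ = Kd.K) ∨ Ty = fun κ => κ ≠ Kd.K) → (∀ k, OffH X c ε1 (off k)) →
      LabF X Ty gr c σ ε1 ε' off L w' → FamH X β C A →
      (∀ q k, |∑ x, β q x * ∑ v ∈ X.nf c x, (X.mv Ty L k v - 1)| ≤ (X.d : ℝ) ^ (-(c / 10))) →
      Kin X Ty gr c σ C ε1 off β L (X.wt Ty gr c σ ε' off L w') := by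
  have hg2 : 2 ≤ g := by omega
  obtain ⟨d1, H1⟩ := hFPT g M C σ1 ε1 ε' c hg hC hσ1 hε' hε'1 hc hc1
  obtain ⟨d2, H2⟩ := hFHB g M C σ1 ε1 ε' c hg2 hC hσ1 hc hc1
  obtain ⟨d3, H3⟩ := hFRW g M C σ1 ε1 ε' c hg2 hC hσ1 hε1 hε' hM hc hc1
  refine ⟨d1 + d2 + d3, ?_⟩
  intro W B τ' _ _ _ X Ty gr σ off L w' β A hd hd1 hσ hσ' hE hG hTy hoff hF hβ hnse
  have P := H1 X Ty gr σ off L w' (by omega) hσ hσ' hE hTy hoff hF
  have Q := H2 X Ty gr σ off L w' (by omega) hσ hσ' hE hoff hF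
  have R := H3 X Ty gr σ off L w' (by omega) hσ hσ' hE hG hTy hoff hF
  exact mkKin hc hd1 (by linarith) hσ' hβ P Q.1 Q.2 hF.ns hnse R

end kinds

/-- **Block LGT.** -/
theorem stmt_LGT (hFLB : Stmt_FLB.{u}) (hFPT : Stmt_FPT.{u}) (hFHB : Stmt_FHB.{u})
    (hFRW : Stmt_FRW.{u}) (hRND : Stmt_RND.{u}) : Stmt_LGT.{u} := by
  intro πk hπ0 hπ1
  obtain ⟨η, hη⟩ : ∃ η : ℝ, η = 1 - 3 * πk := ⟨_, rfl⟩
  have hη0 : 0 < η := by linarith
  have hη1 : η ≤ 1 / 4 := by linarith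
  refine ⟨η / 20000, by linarith, by linarith, ?_⟩
  intro M C ε hC hε
  obtain ⟨ε1, hε1⟩ : ∃ ε1 : ℝ, ε1 = ε / 200 := ⟨_, rfl⟩
  have hε10 : 0 < ε1 := by linarith
  have hM0 : (0 : ℝ) ≤ M := Nat.cast_nonneg _
  obtain ⟨ε', hε'⟩ : ∃ ε' : ℝ, ε' = min 1 (ε1 / (M + 1)) := ⟨_, rfl⟩
  have hε'0 : 0 < ε' := by
    rw [hε']
    exact lt_min one_pos (div_pos hε10 (by linarith))
  have hε'1 : ε' ≤ 1 := by
    rw [hε']
    exact min_le_left _ _
  have hε'M : M * ε' ≤ ε1 := by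
    have h1 : ε' ≤ ε1 / (M + 1) := by
      rw [hε']
      exact min_le_right _ _
    rw [le_div_iff₀ (by linarith)] at h1
    nlinarith
  have hσ1 : 0 < η / 200 := by linarith
  obtain ⟨Cm1, ζ1, hCm1, hζ1, hζ1', H1⟩ := hFLB 3 0 M C (η / 200) ε1 ε' (by norm_num) hC hσ1
    hε10 hε'0 hε'1
  obtain ⟨Cm2, ζ2, hCm2, hζ2, hζ2', H2⟩ := hFLB 2 4 M C (η / 200) ε1 ε' (by norm_num) hC hσ1
    hε10 hε'0 hε'1
  obtain ⟨ζ3, hζ3, H3⟩ := hRND M C (ε / 8) hC (by linarith)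
  obtain ⟨ζ0, hζ0⟩ : ∃ ζ0 : ℝ, ζ0 = min (min ζ1 ζ2) (min ζ3 (ε1 / (40 * (Cm2 + 1)))) := ⟨_, rfl⟩
  have hζ00 : 0 < ζ0 := by
    rw [hζ0]
    exact lt_min (lt_min hζ1 hζ2) (lt_min hζ3 (div_pos hε10 (by linarith)))
  have hl1 : ζ0 ≤ ζ1 := by
    rw [hζ0]
    exact (min_le_left _ _).trans (min_le_left _ _)
  have hl2 : ζ0 ≤ ζ2 := by
    rw [hζ0]
    exact (min_le_left _ _).trans (min_le_right _ _)
  have hl3 : ζ0 ≤ ζ3 := by
    rw [hζ0]
    exact (min_le_right _ _).trans (min_le_left _ _)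
  have hl4 : Cm2 * (40 * ζ0) ≤ ε1 := by
    have h1 : ζ0 ≤ ε1 / (40 * (Cm2 + 1)) := by
      rw [hζ0]
      exact (min_le_right _ _).trans (min_le_right _ _)
    rw [le_div_iff₀ (by linarith)] at h1
    nlinarith
  refine ⟨Cm2, ζ0, hCm2, hζ00, ?_⟩
  intro c A hc hc1 hA
  obtain ⟨d1, H1⟩ := H1 c (A + 1) hc hc1 (by linarith)
  obtain ⟨d2, H2⟩ := H2 c (A + 1) hc hc1 (by linarith)
  obtain ⟨d3, H3⟩ := H3 c (A + 1) hc hc1 (by linarith)
  obtain ⟨d4, H4⟩ := one_kind hFPT hFHB hFRW 3 M C (η / 200) ε1 ε' c (Or.inr rfl) hC hσ1 hε10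
    hε'0 hε'1 hε'M hc hc1
  obtain ⟨d5, H5⟩ := one_kind hFPT hFHB hFRW 2 M C (η / 200) ε1 ε' c (Or.inl rfl) hC hσ1 hε10
    hε'0 hε'1 hε'M hc hc1
  obtain ⟨d6, H6⟩ := num c C η M hc hc1 hη0
  refine ⟨d1 + d2 + d3 + d4 + d5 + d6, ?_⟩
  intro W B τ τ' τ'' _ _ _ _ _ X gr D σ off α β Γ Δ cK cN hd hE hG hSh hoff hα hβ hΓ hcK hcN
  obtain ⟨n1, n2, n3, n4, n5⟩ := H6 X.d (by omega)
  have hd0 : (0 : ℝ) < X.d := by
    have : 0 < X.d := by omega
    exact_mod_cast this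
  have hdn : (0 : ℝ) ≤ X.d := hd0.le
  rw [← hε1] at hoff
  have hE1 := Env.mono' hE hl1 hl1
  have hE2 := Env.mono' hE hl2 hl2
  have hE3 := Env.mono' hE hl3 hl3
  have hE6 := Env.mono' hE1 hζ1' hζ1'
  have hsig := sh_sig (by omega) hSh
  obtain ⟨σC, hσC⟩ : ∃ s, s = σ (cC 0) := ⟨_, rfl⟩
  obtain ⟨σQ, hσQ⟩ : ∃ s, s = σ (cQ 0) := ⟨_, rfl⟩
  rw [← hσC, ← hσQ] at hsig
  have bC := abs_le.1 (hSh.C 0)
  have bQ := abs_le.1 (hSh.Q 0)
  rw [← hσC, ← hη] at bC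
  rw [← hσQ, ← hη] at bQ
  have hC1 : η / 200 ≤ σC := by linarith [bC.1, bC.2]
  have hC2 : σC ≤ 1 := by linarith [bC.1, bC.2]
  have hQ1 : η / 200 ≤ σQ := by linarith [bQ.1, bQ.2]
  have hQ2 : σQ ≤ 1 := by linarith [bQ.1, bQ.2]
  have hδ1 : (X.d : ℝ) ^ (-(c / 60)) ≤ 1 := by linarith
  -- first call: thirds
  have x1 : ExtH X (fun κ => κ = Kd.K) gr C (A + 1) (aT X (fun κ => κ = Kd.K) α (R1 Γ))
      (gT X (fun κ => κ = Kd.K) (R1 Γ)) β (fun (_ : Fin 0) _ => 0) (fun (_ : Fin 0) _ => 0) cK :=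
    extH hΓ (fun r v w h => h) hα hβ n1 _ _ cK (fun l => l.elim0) (fun b hb => (hcK b hb).1)
      (fun b k hb => by
        have := (hcK b hb).2 k
        push_cast
        exact this)
  obtain ⟨th, w1, F1, L1⟩ := H1 X (fun κ => κ = Kd.K) gr σC (fun k => off (cC k)) _ _ β _ _ cK
    (by omega) hC1 hC2 hE1 hG (Or.inl rfl) (fun k => hoff (cC k)) x1
  have K1 := H4 X (fun κ => κ = Kd.K) gr σC (fun k => off (cC k)) th w1 β A (by omega)
    (by omega) hC1 hC2 hE6 hG (Or.inl rfl) (fun k => hoff (cC k)) F1 hβ L1.nse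
  obtain ⟨wC, hwC⟩ : ∃ w, w = X.wt (fun κ => κ = Kd.K) gr c σC ε' (fun k => off (cC k)) th w1 :=
    ⟨_, rfl⟩
  rw [← hwC] at K1
  -- second call: parts
  have x2 : ExtH X (fun κ => κ ≠ Kd.K) gr C (A + 1) (aT X (fun κ => κ ≠ Kd.K) α (R2 th Γ))
      (gT X (fun κ => κ ≠ Kd.K) (R2 th Γ)) β (uF X wC) (UF X (40 * (ζ0 * X.d))) cN :=
    extH hΓ (R2_sub th Γ) hα hβ n1 _ _ cN
      (u0_F hE K1.P.nn (fun k v w => wt_40 (by norm_num) (by linarith) hC2 hδ1 K1.P k v w)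
        K1.P.adj) (fun b hb => (hcN b hb).1)
      (fun b k hb => by
        have := (hcN b hb).2 k
        push_cast
        exact this)
  obtain ⟨pt, w2, F2, L2⟩ := H2 X (fun κ => κ ≠ Kd.K) gr σQ (fun k => off (cQ k)) _ _ β _ _ cN
    (by omega) hQ1 hQ2 hE2 hG (Or.inr rfl) (fun k => hoff (cQ k)) x2
  have K2 := H5 X (fun κ => κ ≠ Kd.K) gr σQ (fun k => off (cQ k)) pt w2 β A (by omega)
    (by omega) hQ1 hQ2 hE6 hG (Or.inr rfl) (fun k => hoff (cQ k)) F2 hβ L2.nse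
  obtain ⟨wQ, hwQ⟩ : ∃ w, w = X.wt (fun κ => κ ≠ Kd.K) gr c σQ ε' (fun k => off (cQ k)) pt w2 :=
    ⟨_, rfl⟩
  rw [← hwQ] at K2
  -- the weights of the six classes
  have hs5 : ∀ v w, s5 wC wQ v w ≤ 1 - η / 2 :=
    s5_le K1.P K2.P (by linarith) (by linarith) hη0.le (by linarith)
      (by linarith [bC.1, bC.2]) (by linarith [bQ.1, bQ.2]) n3
  have hnn := wA_nonneg K1.P K2.P (fun v w => by
    have := hs5 v w
    linarith)
  obtain ⟨cl, c1, c2, c3, c4, c5, c6⟩ := H3 X pt (wA X wC wQ)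
    (fun r v w => ind (R3 th pt Γ r v w)) β (by omega) hE3
    (wA_symm K1.P.sym K2.P.sym) hnn (wA_sum K1.le K2.le) (fun j v w h => wA_0 j v w h)
    (a_sp hΓ n1) (a_mu hΓ n1) (FamH.up hβ n1)
  have hUK : ∀ b, X.kd b = Kd.S → X.kd b ≠ Kd.K := by
    intro b hb h
    rw [hb] at h
    cases h
  have hne : ∀ b, (blk X.bl b).Nonempty := by
    intro b
    have h1 := (hE.sz b).1
    rw [← card_pos]
    have h2 : (0 : ℝ) < ((blk X.bl b).card : ℝ) := by linarith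
    exact_mod_cast h2
  have hfC : ∀ k i b, X.kd b = Kd.S → |∑ v ∈ blk X.bl b, (∑ w, wC k v w) *
      (X.mv (fun κ => κ ≠ Kd.K) pt i v - 1)| ≤ ε1 * X.d := by
    intro k i b hb
    have h1 := L2.fun_ k.castSucc b i (hUK b hb)
    simp only [uF_C, UF_C] at h1
    refine h1.trans ?_
    calc Cm2 * (40 * (ζ0 * X.d)) = (Cm2 * (40 * ζ0)) * X.d := by ring
      _ ≤ ε1 * X.d := mul_le_mul_of_nonneg_right hl4 hdn
  have hft : ∀ i b, X.kd b ≠ Kd.K → |∑ v ∈ blk X.bl b, X.td v *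
      (X.mv (fun κ => κ ≠ Kd.K) pt i v - 1)| ≤ Cm2 * tM X b := by
    intro i b hb
    have h1 := L2.fun_ 3 b i hb
    simp only [uF_3, UF_3] at h1
    exact h1
  have htM : ∀ b, tM X b ≤ ζ0 * X.d := fun b => tM_le b (hne b) _ fun v hv => hE.thn v (by
    rw [hv]
    exact Option.some_ne_none _)
  have htM0 : ∀ b, 0 ≤ tM X b := fun b => Nat.cast_nonneg _
  have hft' : ∀ i b, X.kd b = Kd.S → |∑ v ∈ blk X.bl b, X.td v *
      (X.mv (fun κ => κ ≠ Kd.K) pt i v - 1)| ≤ ε1 * X.d := by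
    intro i b hb
    refine (hft i b (hUK b hb)).trans ?_
    have h1 := htM b
    have h2 : 0 ≤ ζ0 * X.d := mul_nonneg hζ00.le hdn
    calc Cm2 * tM X b ≤ Cm2 * (ζ0 * X.d) := mul_le_mul_of_nonneg_left h1 hCm2.le
      _ ≤ Cm2 * (40 * (ζ0 * X.d)) := mul_le_mul_of_nonneg_left (by linarith) hCm2.le
      _ = (Cm2 * (40 * ζ0)) * X.d := by ring
      _ ≤ ε1 * X.d := mul_le_mul_of_nonneg_right hl4 hdn
  refine ⟨th, pt, cl, ?_⟩
  refine
    { sym := c1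
      al := ?_, hF := ?_, hH := ?_, hB := ?_, row := ?_, td := ?_, cK := ?_, cN := ?_
      tK := ?_, tN := ?_, sh := ?_ }
  · -- al
    intro v w h
    exact wA_al K1.P K2.P _ v w (c2 v w h)
  · -- hF
    intro x j hx hj
    have h1 := c3 x j hx.1
    have h2 := hubF K1 K2 hsig x j hx hj
    have h3 : (X.dl cl j x : ℝ) - (σ j * X.lg x + off j x) =
      ((X.dl cl j x : ℝ) - ∑ v, wA X wC wQ j x v) +
        (∑ v, wA X wC wQ j x v - (σ j * X.lg x + off j x)) := by ring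
    rw [h3]
    refine (abs_add_le _ _).trans ?_
    linarith
  · -- hH
    intro x j hx
    have h1 := c3 x j hx.1
    have h2 := hubH hE K1 K2 hsig x j hx
    have h3 : (X.dl cl j x : ℝ) - σ j * X.lg x =
      ((X.dl cl j x : ℝ) - ∑ v, wA X wC wQ j x v) +
        (∑ v, wA X wC wQ j x v - σ j * X.lg x) := by ring
    rw [h3]
    refine (abs_add_le _ _).trans ?_
    linarith
  · -- hB
    intro q j
    have h1 := c4 q j
    have h2 := hubT hE (by linarith) K1 K2 hsig hβ.h1 q j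
    have h3 : ∑ x, β q x * ((X.dl cl j x : ℝ) - σ j * X.lg x) =
      ∑ x, β q x * ((X.dl cl j x : ℝ) - ∑ v, wA X wC wQ j x v) +
        ∑ x, β q x * (∑ v, wA X wC wQ j x v - σ j * X.lg x) := by
      rw [← sum_add_distrib]
      exact sum_congr rfl fun x _ => by ring
    rw [h3]
    refine (abs_add_le _ _).trans ?_
    linarith
  · -- row
    intro b i j hb
    obtain ⟨ρ, hρ⟩ := rowP K1 K2 hdn hε10.le hfC hft' i j
    have h1 := abs_le.1 (hρ b hb)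
    have hb' : X.kd (X.op b) = Kd.S := (hE.opk b).1.trans hb
    have h2 := abs_le.1 (hρ (X.op b) hb')
    have h3 := td_op hE b hb
    have h4 := abs_le.1 (c5 b i j hb)
    have h5 := abs_le.1 (c5 (X.op b) i j hb')
    rw [sum_sub_distrib] at h4 h5
    rw [h3] at h1
    rw [hε1] at h1 h2
    have h6 : 0 ≤ ε * X.d := mul_nonneg hε.le hdn
    rw [abs_le]
    constructor <;> linarith [h1.1, h1.2, h2.1, h2.2, h4.1, h4.2, h5.1, h5.2]
  · -- td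
    intro b i z hb hz
    have h1 := half b hb X.td i _ (hft i b hb)
    have h2 := tM_le b (hne b) z hz
    have h3 := htM0 b
    refine h1.trans ?_
    have h4 : Cm2 * tM X b ≤ Cm2 * z := mul_le_mul_of_nonneg_left h2 hCm2.le
    have h5 : 0 ≤ Cm2 * tM X b := mul_nonneg hCm2.le h3
    linarith
  · -- cK
    intro b k hb
    exact L1.cnt b k hb
  · -- cN
    intro b k hb
    exact L2.cnt b k hb
  · -- tK
    intro q k
    have h1 := lab_lin (g := 3) (by norm_num) (fun κ => κ = Kd.K) th k _ (Sum.inl q) _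
      (L1.lin (Sum.inl q) k)
    simp only [ite_ind]
    exact h1
  · -- tN
    intro q k
    have h1 := lab_lin (g := 2) (by norm_num) (fun κ => κ ≠ Kd.K) pt k _ (Sum.inl q) _
      (L2.lin (Sum.inl q) k)
    simp only [ite_ind]
    exact h1
  · -- sh
    intro q f f' j hk hf hf'
    have hlo := fun j v w h hv hw hg => wA_lo (th := th) (pt := pt) (gr := gr) K1.P K2.P
      (lam := η / 400) (by linarith [bC.1, bC.2]) (by linarith [bQ.1, bQ.2])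
      (fun v w => by
        have := hs5 v w
        linarith) j v w h hv hw hg
    have h1 := sh_lem hΓ L1 L2 c6 (by linarith) (by linarith) hlo n2 q f f' j hk hf hf'
    have h2 := ng_nonneg (Γ q)
    have h3 : η / 20000 * ng (Γ q) ≤ η / 400 / 36 * ng (Γ q) :=
      mul_le_mul_of_nonneg_right (by linarith) h2
    linarith

end Pool.Agent.Work.MP_db9399_ts.helper26
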