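import Pool.Agent.Work.MP_db9399_ts.Final

/-!
# MP_db9399, TSPLIT, block LGT: counting pairs with given labels (helper26)
-/

set_option autoImplicit false

namespace Pool.Agent.Work.MP_db9399_ts.helper26

open Finset Classical
open Pool.Agent.Work.MP_db9399_all (nb)
open Pool.Agent.Work.MP_db9399_clj.helper75 (OO blk nB eE)
open Pool.Agent.Work.MP_db9399_ts

universe u

section gen
variable {W : Type u} [Fintype W]

/-- indicator -/
noncomputable def ind (p : Prop) : ℝ := if p then 1 else 0

theorem ind_true {p : Prop} (h : p) : ind p = 1 := if_pos h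
theorem ind_false {p : Prop} (h : ¬ p) : ind p = 0 := if_neg h
theorem ind_nonneg (p : Prop) : 0 ≤ ind p := by
  unfold ind
  split_ifs <;> norm_num
theorem ind_le (p : Prop) : ind p ≤ 1 := by
  unfold ind
  split_ifs <;> norm_num
theorem ind_mono {p q : Prop} (h : p → q) : ind p ≤ ind q := by
  by_cases hp : p
  · rw [ind_true hp, ind_true (h hp)]
  · rw [ind_false hp]
    exact ind_nonneg q
theorem ind_mul (p q : Prop) : ind p * ind q = ind (p ∧ q) := by
  by_cases hp : p <;> by_cases hq : q
  · rw [ind_true hp, ind_true hq, ind_true ⟨hp, hq⟩, one_mul]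
  · rw [ind_false hq, ind_false (p := p ∧ q) (fun h => hq h.2), mul_zero]
  · rw [ind_false hp, ind_false (p := p ∧ q) (fun h => hp h.1), zero_mul]
  · rw [ind_false hp, ind_false (p := p ∧ q) (fun h => hp h.1), zero_mul]
theorem ind_sq (p : Prop) : ind p ^ 2 = ind p := by
  by_cases hp : p
  · rw [ind_true hp, one_pow]
  · rw [ind_false hp]
    norm_num
theorem ind_ne {p : Prop} (h : ind p ≠ 0) : p := by
  by_contra hp
  exact h (ind_false hp)

/-- degrees -/
noncomputable def lk (R : W → W → Prop) (v : W) : ℝ := ∑ w, ind (R v w)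

/-- the other order -/
def fl (R : W → W → Prop) (v w : W) : Prop := R w v

theorem card_ind (P : W → Prop) : ((univ.filter fun w => P w).card : ℝ) = ∑ w, ind (P w) := by
  unfold ind
  rw [← sum_filter, sum_const, nsmul_eq_mul, mul_one]

theorem ng_eq (R : W → W → Prop) : ng R = ∑ v, lk R v := by
  unfold ng lk
  rw [card_ind (fun p : W × W => R p.1 p.2), Fintype.sum_prod_type]

theorem ng_fl (R : W → W → Prop) : ng R = ∑ v, lk (fl R) v := by
  rw [ng_eq]
  unfold lk fl
  rw [sum_comm]

theorem ng_nonneg (R : W → W → Prop) : 0 ≤ ng R := Nat.cast_nonneg _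

theorem lk_nonneg (R : W → W → Prop) (v : W) : 0 ≤ lk R v := sum_nonneg fun _ _ => ind_nonneg _

theorem lk_mono {R R' : W → W → Prop} (h : ∀ v w, R v w → R' v w) (v : W) : lk R v ≤ lk R' v :=
  sum_le_sum fun w _ => ind_mono (h v w)

theorem ng_mono {R R' : W → W → Prop} (h : ∀ v w, R v w → R' v w) : ng R ≤ ng R' := by
  rw [ng_eq, ng_eq]
  exact sum_le_sum fun v _ => lk_mono h v

theorem lk_ne {R : W → W → Prop} {v : W} (h : lk R v ≠ 0) : ∃ w, R v w := by
  by_contra hn
  push Not at hn
  exact h (sum_eq_zero fun w _ => ind_false (hn w))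

theorem sum_lk_sq (R : W → W → Prop) (Δ : ℝ) (h : ∀ v, lk R v ≤ Δ) :
    ∑ v, lk R v ^ 2 ≤ ng R * Δ := by
  rw [ng_eq, sum_mul]
  refine sum_le_sum fun v _ => ?_
  rw [sq]
  exact mul_le_mul_of_nonneg_left (h v) (lk_nonneg R v)

end gen

section step
variable {W B : Type u} [Fintype W]

/-- pairs with the required labels -/
def res {g : ℕ} (L : W → Fin g) (o o' : Option (Fin g)) (R : W → W → Prop) (v w : W) : Prop :=
  R v w ∧ (∀ k, o = some k → L v = k) ∧ (∀ k, o' = some k → L w = k)

theorem mv_ty {g : ℕ} (X : Dat W B) (Ty : Kd → Prop) (L : W → Fin g) (k : Fin g) (v : W)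
    (hv : X.ty Ty v) : X.mv Ty L k v = if L v = k then 0 else (g : ℝ) / (g - 1) := by
  unfold Dat.mv mu
  rw [if_pos (mem_filter.2 ⟨mem_univ _, hv⟩)]

theorem mv_nty {g : ℕ} (X : Dat W B) (Ty : Kd → Prop) (L : W → Fin g) (k : Fin g) (v : W)
    (hv : ¬ X.ty Ty v) : X.mv Ty L k v = 1 := by
  unfold Dat.mv mu
  rw [if_neg (fun h => hv (mem_filter.1 h).2)]

/-- the indicator of a label -/
theorem ind_lab {g : ℕ} (hg : 2 ≤ g) (X : Dat W B) (Ty : Kd → Prop) (L : W → Fin g) (k : Fin g)
    (v : W) (hv : X.ty Ty v) :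
    ind (L v = k) = 1 / g - ((g : ℝ) - 1) / g * (X.mv Ty L k v - 1) := by
  have hg' : (2 : ℝ) ≤ g := by exact_mod_cast hg
  have hg1 : (g : ℝ) - 1 ≠ 0 := by
    intro h
    linarith
  have hg0 : (g : ℝ) ≠ 0 := by
    intro h
    linarith
  rw [mv_ty X Ty L k v hv]
  by_cases h : L v = k
  · rw [ind_true h, if_pos h]
    field_simp
    ring
  · rw [ind_false h, if_neg h]
    field_simp
    ring

/-- sums over typed vertices -/
theorem sum_ty {g : ℕ} (X : Dat W B) (Ty : Kd → Prop) (L : W → Fin g) (k : Fin g) (α : W → ℝ) :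
    ∑ v with X.ty Ty v, α v * (X.mv Ty L k v - 1) = ∑ v, α v * (X.mv Ty L k v - 1) := by
  rw [sum_filter]
  refine sum_congr rfl fun v _ => ?_
  by_cases h : X.ty Ty v
  · rw [if_pos h]
  · rw [if_neg h, mv_nty X Ty L k v h, sub_self, mul_zero]

/-- **Pairs with given labels.** -/
theorem step {g : ℕ} (hg : 2 ≤ g) (X : Dat W B) (Ty : Kd → Prop) (L : W → Fin g)
    (o o' : Option (Fin g)) (R : W → W → Prop) (E : ℝ) (hE : 0 ≤ E)
    (h1 : ∀ v w, R v w → (o ≠ none → X.ty Ty v) ∧ (o' ≠ none → X.ty Ty w))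
    (hl : ∀ k, |∑ v, lk R v * (X.mv Ty L k v - 1)| ≤ E)
    (hr : ∀ k, |∑ v, lk (fl R) v * (X.mv Ty L k v - 1)| ≤ E)
    (hb : o ≠ none → o' ≠ none → ∀ k k', |∑ v, ∑ w, ind (R v w) *
      (X.mv Ty L k v * X.mv Ty L k' w - 1)| ≤ 2 * E) :
    ng R / g ^ 2 - 4 * E ≤ ng (res L o o' R) := by
  have hg' : (2 : ℝ) ≤ g := by exact_mod_cast hg
  have hg0 : (0 : ℝ) < g := by linarith
  have hR0 := ng_nonneg R
  have hr1 : 0 ≤ ((g : ℝ) - 1) / g := div_nonneg (by linarith) (by linarith)
  have hr2 : ((g : ℝ) - 1) / g ≤ 1 := by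
    rw [div_le_one hg0]
    linarith
  have hs : ng R / (g : ℝ) ^ 2 ≤ ng R / g := by
    refine div_le_div_of_nonneg_left hR0 hg0 ?_
    nlinarith
  have hs2 : ng R / (g : ℝ) ≤ ng R := div_le_self hR0 (by linarith)
  rcases o with _ | k <;> rcases o' with _ | k'
  · have e : ng (res L none none R) = ng R := by
      congr 1
      ext v w
      constructor
      · exact fun h => h.1
      · exact fun h => ⟨h, fun k hk => (by cases hk), fun k hk => (by cases hk)⟩
    rw [e]
    linarith
  · have e : ng (res L none (some k') R) = ng R / g -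
        ((g : ℝ) - 1) / g * ∑ v, lk (fl R) v * (X.mv Ty L k' v - 1) := by
      rw [ng_fl, ng_fl, sum_div, mul_sum, ← sum_sub_distrib]
      refine sum_congr rfl fun w _ => ?_
      unfold lk
      rw [sum_div, sum_mul, mul_sum, ← sum_sub_distrib]
      refine sum_congr rfl fun v _ => ?_
      by_cases h : R v w
      · have h2 : ind (fl (res L none (some k') R) w v) = ind (L w = k') := by
          by_cases h3 : L w = k'
          · rw [ind_true h3, ind_true]
            exact ⟨h, fun k hk => (by cases hk), fun k hk => (by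
              rw [← Option.some.inj hk]
              exact h3)⟩
          · rw [ind_false h3, ind_false]
            exact fun h4 => h3 (h4.2.2 k' rfl)
        have h3 : ind (fl R w v) = 1 := ind_true h
        rw [h2, h3, ind_lab hg X Ty L k' w ((h1 v w h).2 (Option.some_ne_none _))]
        ring
      · have h2 : ind (fl (res L none (some k') R) w v) = 0 := ind_false fun h4 => h h4.1
        have h3 : ind (fl R w v) = 0 := ind_false h
        rw [h2, h3]
        ring
    rw [e]
    have h2 := hr k'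
    have h3 := abs_le.1 h2
    have h4 : ((g : ℝ) - 1) / g * ∑ v, lk (fl R) v * (X.mv Ty L k' v - 1) ≤ 1 * E := by
      refine (mul_le_mul_of_nonneg_left h3.2 hr1).trans ?_
      exact mul_le_mul_of_nonneg_right hr2 hE
    linarith
  · have e : ng (res L (some k) none R) = ng R / g -
        ((g : ℝ) - 1) / g * ∑ v, lk R v * (X.mv Ty L k v - 1) := by
      rw [ng_eq, ng_eq, sum_div, mul_sum, ← sum_sub_distrib]
      refine sum_congr rfl fun v _ => ?_
      unfold lk
      rw [sum_div, sum_mul, mul_sum, ← sum_sub_distrib]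
      refine sum_congr rfl fun w _ => ?_
      by_cases h : R v w
      · have h2 : ind (res L (some k) none R v w) = ind (L v = k) := by
          by_cases h3 : L v = k
          · rw [ind_true h3, ind_true]
            exact ⟨h, fun k' hk => (by
              rw [← Option.some.inj hk]
              exact h3), fun k hk => (by cases hk)⟩
          · rw [ind_false h3, ind_false]
            exact fun h4 => h3 (h4.2.1 k rfl)
        rw [h2, ind_true h, ind_lab hg X Ty L k v ((h1 v w h).1 (Option.some_ne_none _))]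
        ring
      · have h2 : ind (res L (some k) none R v w) = 0 := ind_false fun h4 => h h4.1
        rw [h2, ind_false h]
        ring
    rw [e]
    have h2 := hl k
    have h3 := abs_le.1 h2
    have h4 : ((g : ℝ) - 1) / g * ∑ v, lk R v * (X.mv Ty L k v - 1) ≤ 1 * E := by
      refine (mul_le_mul_of_nonneg_left h3.2 hr1).trans ?_
      exact mul_le_mul_of_nonneg_right hr2 hE
    linarith
  · have e : ng (res L (some k) (some k') R) = ng R / (g : ℝ) ^ 2 -
        ((g : ℝ) - 1) / g * ∑ v, lk R v * (X.mv Ty L k v - 1) -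
        ((g : ℝ) - 1) / g * ∑ v, lk (fl R) v * (X.mv Ty L k' v - 1) +
        (((g : ℝ) - 1) / g) ^ 2 * ∑ v, ∑ w, ind (R v w) *
          (X.mv Ty L k v * X.mv Ty L k' w - 1) := by
      have e1 : ∑ v, lk (fl R) v * (X.mv Ty L k' v - 1) =
          ∑ v, ∑ w, ind (R v w) * (X.mv Ty L k' w - 1) := by
        unfold lk fl
        rw [sum_comm]
        refine sum_congr rfl fun w _ => ?_
        rw [sum_mul]
      rw [e1, ng_eq, ng_eq]
      unfold lk
      rw [sum_div, mul_sum, mul_sum, mul_sum, ← sum_sub_distrib, ← sum_sub_distrib,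
        ← sum_add_distrib]
      refine sum_congr rfl fun v _ => ?_
      rw [sum_div, sum_mul, mul_sum, mul_sum, mul_sum, ← sum_sub_distrib, ← sum_sub_distrib,
        ← sum_add_distrib]
      refine sum_congr rfl fun w _ => ?_
      by_cases h : R v w
      · have h2 : ind (res L (some k) (some k') R v w) = ind (L v = k) * ind (L w = k') := by
          rw [ind_mul]
          by_cases h3 : L v = k ∧ L w = k'
          · rw [ind_true h3, ind_true]
            exact ⟨h, fun k' hk => (by
              rw [← Option.some.inj hk]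
              exact h3.1), fun k hk => (by
              rw [← Option.some.inj hk]
              exact h3.2)⟩
          · rw [ind_false h3, ind_false]
            exact fun h4 => h3 ⟨h4.2.1 k rfl, h4.2.2 k' rfl⟩
        rw [h2, ind_true h, ind_lab hg X Ty L k v ((h1 v w h).1 (Option.some_ne_none _)),
          ind_lab hg X Ty L k' w ((h1 v w h).2 (Option.some_ne_none _))]
        field_simp
        ring
      · have h2 : ind (res L (some k) (some k') R v w) = 0 := ind_false fun h4 => h h4.1
        rw [h2, ind_false h]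
        ring
    rw [e]
    have h2 := abs_le.1 (hl k)
    have h3 := abs_le.1 (hr k')
    have h4 := abs_le.1 (hb (Option.some_ne_none _) (Option.some_ne_none _) k k')
    have h5 : ((g : ℝ) - 1) / g * ∑ v, lk R v * (X.mv Ty L k v - 1) ≤ 1 * E := by
      refine (mul_le_mul_of_nonneg_left h2.2 hr1).trans ?_
      exact mul_le_mul_of_nonneg_right hr2 hE
    have h6 : ((g : ℝ) - 1) / g * ∑ v, lk (fl R) v * (X.mv Ty L k' v - 1) ≤ 1 * E := by
      refine (mul_le_mul_of_nonneg_left h3.2 hr1).trans ?_
      exact mul_le_mul_of_nonneg_right hr2 hE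
    have h7 : -(2 * E) ≤ (((g : ℝ) - 1) / g) ^ 2 * ∑ v, ∑ w, ind (R v w) *
          (X.mv Ty L k v * X.mv Ty L k' w - 1) := by
      have h8 : (((g : ℝ) - 1) / g) ^ 2 ≤ 1 := by nlinarith
      have h9 : 0 ≤ (((g : ℝ) - 1) / g) ^ 2 := sq_nonneg _
      have h10 : (((g : ℝ) - 1) / g) ^ 2 * (-(2 * E)) ≤ (((g : ℝ) - 1) / g) ^ 2 *
        ∑ v, ∑ w, ind (R v w) * (X.mv Ty L k v * X.mv Ty L k' w - 1) :=
        mul_le_mul_of_nonneg_left h4.1 h9
      nlinarith
    linarith

end step

end Pool.Agent.Work.MP_db9399_ts.helper26
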