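import Pool.Agent.Work.MP_db9399_ts_helper26.Lg1

/-!
# MP_db9399, TSPLIT, block LGT: the tests from the sets of edges (helper26)
-/

set_option autoImplicit false

namespace Pool.Agent.Work.MP_db9399_ts.helper26

open Finset Classical
open Pool.Agent.Work.MP_db9399_all (nb)
open Pool.Agent.Work.MP_db9399_clj.helper75 (OO blk nB eE)
open Pool.Agent.Work.MP_db9399_ts

universe u

/-- index of the relations -/
abbrev Ix (τ : Type u) : Type u := τ × Fin 6 × Fin 6

section fam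
variable {W B τ τ' τ'' : Type u} [Fintype W] [Fintype B] [Fintype τ] [Fintype τ'] [Fintype τ'']

/-- the linear tests (only at typed vertices) -/
noncomputable def aT (X : Dat W B) (Ty : Kd → Prop) (α : τ → W → ℝ)
    (R : Ix τ'' → W → W → Prop) : τ ⊕ (Ix τ'' × Bool) → W → ℝ :=
  Sum.elim α fun y v => if X.ty Ty v then (if y.2 then lk (R y.1) v else lk (fl (R y.1)) v) else 0

/-- the bilinear tests -/
noncomputable def gT (X : Dat W B) (Ty : Kd → Prop) (R : Ix τ'' → W → W → Prop) :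
    Ix τ'' → W → W → ℝ := fun r v w => ind (R r v w ∧ X.ty Ty v ∧ X.ty Ty w)

theorem card_of_inj {α β : Type*} (s : Finset α) (t : Finset β) (f : β → α)
    (h : ∀ x ∈ s, ∃ y ∈ t, f y = x) : s.card ≤ t.card := by
  refine le_trans (card_le_card (t := t.image f) ?_) card_image_le
  intro x hx
  obtain ⟨y, h1, h2⟩ := h x hx
  exact mem_image.2 ⟨y, h1, h2⟩

variable {X : Dat W B} {gr : W → Fin 3} {A C : ℝ} {Γ : τ'' → W → W → Prop} {Δ : τ'' → ℝ}
  {α : τ → W → ℝ} {β : τ' → W → ℝ} {R : Ix τ'' → W → W → Prop}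

theorem pow_up (d : ℕ) (A : ℝ) (hd : 73 ≤ d) : 73 * (d : ℝ) ^ A ≤ (d : ℝ) ^ (A + 1) := by
  have h1 : (73 : ℝ) ≤ d := by exact_mod_cast hd
  have h2 : (0 : ℝ) < d := by linarith
  rw [Real.rpow_add h2, Real.rpow_one, mul_comm]
  exact mul_le_mul_of_nonneg_left h1 (Real.rpow_nonneg h2.le _)

theorem pow_up' (d : ℕ) (A : ℝ) (hd : 73 ≤ d) (K : ℝ) (hK : K ≤ 73) :
    K * (d : ℝ) ^ A ≤ (d : ℝ) ^ (A + 1) := by
  refine le_trans ?_ (pow_up d A hd)
  exact mul_le_mul_of_nonneg_right hK (Real.rpow_nonneg (Nat.cast_nonneg _) _)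

theorem sp_R (hΓ : GamH X gr A Γ Δ) (hR : ∀ r v w, R r v w → Γ r.1 v w) (r : Ix τ'') :
    ng (R r) ≤ (X.d : ℝ) ^ A := (ng_mono (hR r)).trans (hΓ.sp r.1)

theorem supp_R (hΓ : GamH X gr A Γ Δ) (hR : ∀ r v w, R r v w → Γ r.1 v w) (r : Ix τ'') :
    ((univ.filter fun v => ∃ w, R r v w).card : ℝ) ≤ (X.d : ℝ) ^ A := by
  refine le_trans ?_ (sp_R hΓ hR r)
  refine Nat.cast_le.2 (card_of_inj _ _ Prod.fst ?_)
  intro v hv
  obtain ⟨w, hw⟩ := (mem_filter.1 hv).2
  exact ⟨(v, w), mem_filter.2 ⟨mem_univ _, hw⟩, rfl⟩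

theorem supp_R' (hΓ : GamH X gr A Γ Δ) (hR : ∀ r v w, R r v w → Γ r.1 v w) (r : Ix τ'') :
    ((univ.filter fun v => ∃ w, R r w v).card : ℝ) ≤ (X.d : ℝ) ^ A := by
  refine le_trans ?_ (sp_R hΓ hR r)
  refine Nat.cast_le.2 (card_of_inj _ _ Prod.snd ?_)
  intro v hv
  obtain ⟨w, hw⟩ := (mem_filter.1 hv).2
  exact ⟨(w, v), mem_filter.2 ⟨mem_univ _, hw⟩, rfl⟩

theorem mu_R (hΓ : GamH X gr A Γ Δ) (hR : ∀ r v w, R r v w → Γ r.1 v w) (v : W) :
    ((univ.filter fun r => ∃ w, R r v w ∨ R r w v).card : ℝ) ≤ 36 * (X.d : ℝ) ^ A := by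
  have h1 : (univ.filter fun r => ∃ w, R r v w ∨ R r w v).card ≤
      ((univ.filter fun q => ∃ w, Γ q v w ∨ Γ q w v) ×ˢ
        (univ : Finset (Fin 6 × Fin 6))).card := by
    refine card_le_card ?_
    intro r hr
    obtain ⟨w, hw⟩ := (mem_filter.1 hr).2
    exact mem_product.2 ⟨mem_filter.2 ⟨mem_univ _, w, hw.imp (hR r v w) (hR r w v)⟩,
      mem_univ _⟩
  rw [card_product, card_univ, Fintype.card_prod, Fintype.card_fin] at h1
  have h2 : ((univ.filter fun r => ∃ w, R r v w ∨ R r w v).card : ℝ) ≤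
      ((univ.filter fun q => ∃ w, Γ q v w ∨ Γ q w v).card : ℝ) * (6 * 6) := by
    exact_mod_cast h1
  have h3 := hΓ.mu v
  linarith

theorem aT_t {Ty : Kd → Prop} {r : Ix τ''} {v : W}
    (h : aT X Ty α R (Sum.inr (r, true)) v ≠ 0) : lk (R r) v ≠ 0 := by
  change (if X.ty Ty v then lk (R r) v else 0) ≠ 0 at h
  by_cases h1 : X.ty Ty v
  · rw [if_pos h1] at h
    exact h
  · rw [if_neg h1] at h
    exact absurd rfl h

theorem aT_f {Ty : Kd → Prop} {r : Ix τ''} {v : W}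
    (h : aT X Ty α R (Sum.inr (r, false)) v ≠ 0) : lk (fl (R r)) v ≠ 0 := by
  change (if X.ty Ty v then lk (fl (R r)) v else 0) ≠ 0 at h
  by_cases h1 : X.ty Ty v
  · rw [if_pos h1] at h
    exact h
  · rw [if_neg h1] at h
    exact absurd rfl h

theorem fam_aT {Ty : Kd → Prop} (hΓ : GamH X gr A Γ Δ) (hR : ∀ r v w, R r v w → Γ r.1 v w)
    (hα : Fam α X.d A) (hd : 73 ≤ X.d) : Fam (aT X Ty α R) X.d (A + 1) where
  sp := by
    rintro (q | ⟨r, b⟩)
    · refine (hα.sp q).trans ?_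
      have := pow_up' X.d A hd 1 (by norm_num)
      linarith
    · have h1 := pow_up' X.d A hd 1 (by norm_num)
      rw [one_mul] at h1
      refine le_trans ?_ h1
      cases b
      · refine le_trans (Nat.cast_le.2 (card_le_card ?_)) (supp_R' hΓ hR r)
        intro v hv
        exact mem_filter.2 ⟨mem_univ _, lk_ne (R := fl (R r)) (aT_f (mem_filter.1 hv).2)⟩
      · refine le_trans (Nat.cast_le.2 (card_le_card ?_)) (supp_R hΓ hR r)
        intro v hv
        exact mem_filter.2 ⟨mem_univ _, lk_ne (R := R r) (aT_t (mem_filter.1 hv).2)⟩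
  mu := by
    intro v
    have h1 : (univ.filter fun q => aT X Ty α R q v ≠ 0) ⊆
        ((univ.filter fun q => α q v ≠ 0).map Function.Embedding.inl) ∪
        (((univ.filter fun r => ∃ w, R r v w ∨ R r w v) ×ˢ (univ : Finset Bool)).map
          Function.Embedding.inr) := by
      rintro (q | ⟨r, b⟩) hq
      · refine mem_union_left _ (mem_map.2 ⟨q, mem_filter.2 ⟨mem_univ _, ?_⟩, rfl⟩)
        exact (mem_filter.1 hq).2
      · refine mem_union_right _ (mem_map.2 ⟨(r, b), mem_product.2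
          ⟨mem_filter.2 ⟨mem_univ _, ?_⟩, mem_univ _⟩, rfl⟩)
        have h2 := (mem_filter.1 hq).2
        cases b
        · obtain ⟨w, hw⟩ := lk_ne (R := fl (R r)) (aT_f h2)
          exact ⟨w, Or.inr hw⟩
        · obtain ⟨w, hw⟩ := lk_ne (R := R r) (aT_t h2)
          exact ⟨w, Or.inl hw⟩
    have h2 := (card_le_card h1).trans (card_union_le _ _)
    rw [card_map, card_map, card_product, card_univ, Fintype.card_bool] at h2
    have h3 : ((univ.filter fun q => aT X Ty α R q v ≠ 0).card : ℝ) ≤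
        ((univ.filter fun q => α q v ≠ 0).card : ℝ) +
        ((univ.filter fun r => ∃ w, R r v w ∨ R r w v).card : ℝ) * 2 := by exact_mod_cast h2
    have h4 := hα.mu v
    have h5 := mu_R hΓ hR v
    have h6 := pow_up X.d A hd
    linarith

theorem FamH.up (hβ : FamH X β C A) (hd : 73 ≤ X.d) : FamH X β C (A + 1) where
  fam := by
    have h1 := pow_up' X.d A hd 1 (by norm_num)
    rw [one_mul] at h1
    exact ⟨fun q => (hβ.fam.sp q).trans h1, fun v => (hβ.fam.mu v).trans h1⟩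
  h1 := hβ.h1
  sup := hβ.sup
  l1 := hβ.l1

theorem ty_some {Ty : Kd → Prop} {v : W} (h : X.ty Ty v) : ∃ b, X.bl v = some b := by
  obtain ⟨b, hb, _⟩ := h
  exact ⟨b, hb⟩

/-- **The hypotheses of the external tests.** -/
theorem extH {g m : ℕ} {Ty : Kd → Prop} (hΓ : GamH X gr A Γ Δ)
    (hR : ∀ r v w, R r v w → Γ r.1 v w) (hα : Fam α X.d A) (hβ : FamH X β C A) (hd : 73 ≤ X.d)
    (u : Fin m → W → ℝ) (U : Fin m → B → ℝ) (cnt : B → Fin g → ℕ)
    (u0 : ∀ l v b, X.bl v = some b → |u l v| ≤ U l b)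
    (s : ∀ b, Ty (X.kd b) → ∑ k, cnt b k = (blk X.bl b).card)
    (n : ∀ b k, Ty (X.kd b) → |(cnt b k : ℝ) - ((blk X.bl b).card : ℝ) / g| ≤ 3) :
    ExtH X Ty gr C (A + 1) (aT X Ty α R) (gT X Ty R) β u U cnt where
  a := fam_aT hΓ hR hα hd
  b := FamH.up hβ hd
  c0 := fun r v w => ind_nonneg _
  c1 := by
    intro r v w h
    obtain ⟨h1, h2, h3⟩ := ind_ne h
    obtain ⟨b, hb⟩ := ty_some h2
    obtain ⟨b', hb'⟩ := ty_some h3
    exact ⟨h2, h3, (hΓ.gr r.1 v w b b' (hR r v w h1) hb hb').1⟩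
  c2 := by
    intro r
    have h1 : (univ.filter fun v => ∃ w, gT X Ty R r v w ≠ 0 ∨ gT X Ty R r w v ≠ 0) ⊆
        (univ.filter fun v => ∃ w, R r v w) ∪ (univ.filter fun v => ∃ w, R r w v) := by
      intro v hv
      obtain ⟨w, hw⟩ := (mem_filter.1 hv).2
      rcases hw with hw | hw
      · exact mem_union_left _ (mem_filter.2 ⟨mem_univ _, w, (ind_ne hw).1⟩)
      · exact mem_union_right _ (mem_filter.2 ⟨mem_univ _, w, (ind_ne hw).1⟩)
    have h2 : ((univ.filter fun v => ∃ w, gT X Ty R r v w ≠ 0 ∨ gT X Ty R r w v ≠ 0).card : ℝ) ≤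
        ((univ.filter fun v => ∃ w, R r v w).card : ℝ) +
        ((univ.filter fun v => ∃ w, R r w v).card : ℝ) := by
      exact_mod_cast (card_le_card h1).trans (card_union_le _ _)
    have h3 := supp_R hΓ hR r
    have h4 := supp_R' hΓ hR r
    have h5 := pow_up' X.d A hd 2 (by norm_num)
    linarith
  c3 := by
    intro v
    have h1 : ((univ.filter fun r => ∃ w, gT X Ty R r v w ≠ 0 ∨ gT X Ty R r w v ≠ 0).card : ℝ) ≤
        ((univ.filter fun r => ∃ w, R r v w ∨ R r w v).card : ℝ) := by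
      refine Nat.cast_le.2 (card_le_card ?_)
      intro r hr
      obtain ⟨w, hw⟩ := (mem_filter.1 hr).2
      exact mem_filter.2 ⟨mem_univ _, w, hw.imp (fun h => (ind_ne h).1) fun h => (ind_ne h).1⟩
    have h3 := mu_R hΓ hR v
    have h5 := pow_up' X.d A hd 36 (by norm_num)
    linarith
  u0 := u0
  s := s
  n := n

/-- the error of a set of edges -/
noncomputable def er (X : Dat W B) (Γ : W → W → Prop) (Δ : ℝ) : ℝ :=
  Real.log X.d ^ 2 * (Real.sqrt (ng Γ * Δ) + ng Γ / X.d)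

omit [Fintype B] in
theorem er_nonneg (Γ : W → W → Prop) (Δ : ℝ) : 0 ≤ er X Γ Δ := by
  unfold er
  have := ng_nonneg Γ
  positivity

theorem lk_bd (hΓ : GamH X gr A Γ Δ) (hR : ∀ r v w, R r v w → Γ r.1 v w) (r : Ix τ'') (v : W)
    (hv : X.bl v ≠ none) : lk (R r) v ≤ Δ r.1 ∧ lk (fl (R r)) v ≤ Δ r.1 := by
  constructor
  · refine (lk_mono (hR r) v).trans ?_
    have h1 := hΓ.d1 r.1 v hv
    rw [card_ind] at h1
    exact h1
  · refine (lk_mono (R' := fl (Γ r.1)) (fun a b => hR r b a) v).trans ?_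
    have h1 := hΓ.d2 r.1 v hv
    rw [card_ind] at h1
    exact h1

/-- sum of squares over typed vertices -/
theorem sq_gen {Ty : Kd → Prop} (F : W → ℝ) (D N : ℝ) (h0 : ∀ v, 0 ≤ F v)
    (h1 : ∀ v, X.bl v ≠ none → F v ≤ D) (h2 : ∑ v, F v ≤ N) (hD : 0 ≤ D) :
    ∑ v, (if X.ty Ty v then F v else 0) ^ 2 ≤ N * D := by
  have h3 : ∀ v ∈ (univ : Finset W), (if X.ty Ty v then F v else 0) ^ 2 ≤ F v * D := by
    intro v _
    by_cases h : X.ty Ty v
    · rw [if_pos h, sq]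
      obtain ⟨b, hb⟩ := ty_some h
      exact mul_le_mul_of_nonneg_left (h1 v (by rw [hb]; exact Option.some_ne_none _)) (h0 v)
    · rw [if_neg h]
      have := mul_nonneg (h0 v) hD
      nlinarith
  refine (sum_le_sum h3).trans ?_
  rw [← sum_mul]
  exact mul_le_mul_of_nonneg_right h2 hD

theorem l1_gen {Ty : Kd → Prop} (F : W → ℝ) (N : ℝ) (h0 : ∀ v, 0 ≤ F v) (h2 : ∑ v, F v ≤ N) :
    ∑ v, |if X.ty Ty v then F v else 0| ≤ N := by
  refine le_trans (sum_le_sum fun v _ => ?_) h2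
  by_cases h : X.ty Ty v
  · rw [if_pos h, abs_of_nonneg (h0 v)]
  · rw [if_neg h, abs_zero]
    exact h0 v

/-- pairs with given labels, from `LabX` -/
theorem lab_step {g m : ℕ} (hg : 2 ≤ g) {Ty : Kd → Prop} {L : W → Fin g} {c Cm : ℝ}
    {u : Fin m → W → ℝ} {U : Fin m → B → ℝ} {cnt : B → Fin g → ℕ}
    (hΓ : GamH X gr A Γ Δ) (hR : ∀ r v w, R r v w → Γ r.1 v w)
    (hL : LabX X Ty c Cm (aT X Ty α R) (gT X Ty R) β u U cnt L) (r : Ix τ'') (hΔ : 0 ≤ Δ r.1)
    (o o' : Option (Fin g))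
    (h1 : ∀ v w, R r v w → (o ≠ none → X.ty Ty v) ∧ (o' ≠ none → X.ty Ty w)) :
    ng (R r) / g ^ 2 - 4 * er X (Γ r.1) (Δ r.1) ≤ ng (res L o o' (R r)) := by
  have hd0 : (0 : ℝ) ≤ X.d := Nat.cast_nonneg _
  have hng := ng_mono (hR r)
  have hlog : 0 ≤ Real.log X.d ^ 2 := sq_nonneg _
  have hs1 : ∑ v, lk (R r) v ≤ ng (Γ r.1) := by
    rw [← ng_eq]
    exact hng
  have hs2 : ∑ v, lk (fl (R r)) v ≤ ng (Γ r.1) := by
    rw [← ng_fl]
    exact hng
  refine step hg X Ty L o o' (R r) _ (er_nonneg _ _) h1 ?_ ?_ ?_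
  · intro k
    have h2 := hL.lin (Sum.inr (r, true)) k
    have e1 : ∑ v with X.ty Ty v, aT X Ty α R (Sum.inr (r, true)) v * (X.mv Ty L k v - 1) =
        ∑ v, lk (R r) v * (X.mv Ty L k v - 1) := by
      rw [← sum_ty X Ty L k (lk (R r))]
      refine sum_congr rfl fun v hv => ?_
      change (if X.ty Ty v then lk (R r) v else 0) * _ = _
      rw [if_pos (mem_filter.1 hv).2]
    rw [e1] at h2
    refine h2.trans (mul_le_mul_of_nonneg_left (add_le_add ?_ ?_) hlog)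
    · exact Real.sqrt_le_sqrt (sq_gen (Ty := Ty) (lk (R r)) _ _ (lk_nonneg _)
        (fun v hv => (lk_bd hΓ hR r v hv).1) hs1 hΔ)
    · exact div_le_div_of_nonneg_right (l1_gen (Ty := Ty) (lk (R r)) _ (lk_nonneg _) hs1) hd0
  · intro k
    have h2 := hL.lin (Sum.inr (r, false)) k
    have e1 : ∑ v with X.ty Ty v, aT X Ty α R (Sum.inr (r, false)) v * (X.mv Ty L k v - 1) =
        ∑ v, lk (fl (R r)) v * (X.mv Ty L k v - 1) := by
      rw [← sum_ty X Ty L k (lk (fl (R r)))]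
      refine sum_congr rfl fun v hv => ?_
      change (if X.ty Ty v then lk (fl (R r)) v else 0) * _ = _
      rw [if_pos (mem_filter.1 hv).2]
    rw [e1] at h2
    refine h2.trans (mul_le_mul_of_nonneg_left (add_le_add ?_ ?_) hlog)
    · exact Real.sqrt_le_sqrt (sq_gen (Ty := Ty) (lk (fl (R r))) _ _ (lk_nonneg _)
        (fun v hv => (lk_bd hΓ hR r v hv).2) hs2 hΔ)
    · exact div_le_div_of_nonneg_right (l1_gen (Ty := Ty) (lk (fl (R r))) _ (lk_nonneg _) hs2) hd0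
  · intro ho ho' k k'
    have h2 := hL.bil r k k'
    have hγ : ∀ v w, gT X Ty R r v w = ind (R r v w) := by
      intro v w
      by_cases h : R r v w
      · rw [ind_true h]
        exact ind_true ⟨h, (h1 v w h).1 ho, (h1 v w h).2 ho'⟩
      · rw [ind_false h]
        exact ind_false fun h' => h h'.1
    simp only [hγ] at h2
    refine h2.trans ?_
    have e1 : ∀ v, ∑ w, (ind (R r v w) + ind (R r w v)) =
        if X.ty Ty v then lk (R r) v + lk (fl (R r)) v else 0 := by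
      intro v
      rw [sum_add_distrib]
      by_cases hv : X.ty Ty v
      · rw [if_pos hv]
        rfl
      · rw [if_neg hv, sum_eq_zero, sum_eq_zero, add_zero]
        · intro w _
          exact ind_false fun h => hv ((h1 w v h).2 ho')
        · intro w _
          exact ind_false fun h => hv ((h1 v w h).1 ho)
    have e2 : ∑ v, ∑ w, ind (R r v w) = ng (R r) := (ng_eq _).symm
    rw [e2]
    simp only [e1]
    have h5 : ∑ v, (if X.ty Ty v then lk (R r) v + lk (fl (R r)) v else 0) ^ 2 ≤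
        (2 * ng (Γ r.1)) * (2 * Δ r.1) :=
      sq_gen (Ty := Ty) (fun v => lk (R r) v + lk (fl (R r)) v) _ _
        (fun v => add_nonneg (lk_nonneg _ v) (lk_nonneg _ v))
        (fun v hv => by
          have := lk_bd hΓ hR r v hv
          linarith) (by
          rw [sum_add_distrib]
          linarith) (by linarith)
    have h7 : Real.sqrt (∑ v, (if X.ty Ty v then lk (R r) v + lk (fl (R r)) v else 0) ^ 2) ≤
        2 * Real.sqrt (ng (Γ r.1) * Δ r.1) := by
      refine (Real.sqrt_le_sqrt h5).trans (le_of_eq ?_)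
      rw [show (2 * ng (Γ r.1)) * (2 * Δ r.1) = 2 ^ 2 * (ng (Γ r.1) * Δ r.1) by ring,
        Real.sqrt_mul (by norm_num), Real.sqrt_sq (by norm_num)]
    have h8 : ng (R r) / X.d ≤ 2 * (ng (Γ r.1) / X.d) := by
      have h9 : ng (R r) / X.d ≤ ng (Γ r.1) / X.d := div_le_div_of_nonneg_right hng hd0
      have h10 : 0 ≤ ng (Γ r.1) / X.d := div_nonneg (ng_nonneg _) hd0
      linarith
    unfold er
    calc Real.log X.d ^ 2 * (Real.sqrt (∑ v, (if X.ty Ty v then lk (R r) v +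
          lk (fl (R r)) v else 0) ^ 2) + ng (R r) / X.d)
        ≤ Real.log X.d ^ 2 * (2 * Real.sqrt (ng (Γ r.1) * Δ r.1) + 2 * (ng (Γ r.1) / X.d)) :=
          mul_le_mul_of_nonneg_left (add_le_add h7 h8) hlog
      _ = _ := by ring

end fam

end Pool.Agent.Work.MP_db9399_ts.helper26
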