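import Pool.Agent.Work.MP_db9399_ts_helper26.Lg2

/-!
# MP_db9399, TSPLIT, block LGT: the weights of the six classes (helper26)
-/

set_option autoImplicit false

namespace Pool.Agent.Work.MP_db9399_ts.helper26

open Finset Classical
open Pool.Agent.Work.MP_db9399_all (nb)
open Pool.Agent.Work.MP_db9399_clj.helper75 (OO blk nB eE)
open Pool.Agent.Work.MP_db9399_ts

universe u

section kin
variable {W B τ' : Type u} [Fintype W] [Fintype B] [Fintype τ']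

/-- what is used of the weights of one kind of classes -/
structure Kin {g : ℕ} (X : Dat W B) (Ty : Kd → Prop) (gr : W → Fin 3) (c σ C ε1 : ℝ)
    (off : Fin g → W → ℝ) (β : τ' → W → ℝ) (L : W → Fin g) (wt : Fin g → W → W → ℝ) :
    Prop where
  P : FrP X Ty gr c σ L wt
  F : ∀ k x, X.fr x → |∑ v, wt k x v - (σ * X.lg x + off k x)| ≤ 1
  H : ∀ k x, X.h1 x → |∑ v, wt k x v - σ * X.lg x| ≤ 2 * (X.d : ℝ) ^ (1 / 6 : ℝ)
  T : ∀ q k, |∑ x, β q x * (∑ v, wt k x v - σ * X.lg x)| ≤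
    (C + 1) * (X.d : ℝ) ^ (-(c / 30))
  R : ∀ k b, X.kd b = Kd.S → |∑ v ∈ blk X.bl b, ∑ y, wt k v y -
    σ * ∑ v ∈ blk X.bl b, X.td v| ≤ 10 * ε1 * X.d

theorem mkKin {g : ℕ} {X : Dat W B} {Ty : Kd → Prop} {gr : W → Fin 3} {c σ C A ε1 : ℝ}
    {off : Fin g → W → ℝ} {β : τ' → W → ℝ} {L : W → Fin g} {wt : Fin g → W → W → ℝ}
    (hc : 0 < c) (hd : 1 ≤ X.d) (hσ0 : 0 ≤ σ) (hσ1 : σ ≤ 1) (hβ : FamH X β C A)
    (hP : FrP X Ty gr c σ L wt)
    (hF : ∀ k x, X.fr x → |∑ v, wt k x v - (σ * X.lg x + off k x)| ≤ (X.d : ℝ) ^ (-(c / 30)))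
    (hH : ∀ k x, X.h1 x → |∑ v, wt k x v - (σ * X.lg x +
      ∑ v ∈ X.nf c x, σ * (X.mv Ty L k v - 1))| ≤ (X.d : ℝ) ^ (-(c / 30)))
    (hns : ∀ k x, X.bl x = none → |∑ v ∈ X.nf c x, (X.mv Ty L k v - 1)| ≤
      (X.d : ℝ) ^ (1 / 6 : ℝ))
    (hnse : ∀ q k, |∑ x, β q x * ∑ v ∈ X.nf c x, (X.mv Ty L k v - 1)| ≤
      (X.d : ℝ) ^ (-(c / 10)))
    (hR : ∀ k b, X.kd b = Kd.S → |∑ v ∈ blk X.bl b, ∑ y, wt k v y -
      σ * ∑ v ∈ blk X.bl b, X.td v| ≤ 10 * ε1 * X.d) :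
    Kin X Ty gr c σ C ε1 off β L wt := by
  have hd1 : (1 : ℝ) ≤ X.d := by exact_mod_cast hd
  have e1 : (X.d : ℝ) ^ (-(c / 30)) ≤ 1 := Real.rpow_le_one_of_one_le_of_nonpos hd1 (by linarith)
  have e2 : (1 : ℝ) ≤ (X.d : ℝ) ^ (1 / 6 : ℝ) := Real.one_le_rpow hd1 (by norm_num)
  have e3 : (X.d : ℝ) ^ (-(c / 10)) ≤ (X.d : ℝ) ^ (-(c / 30)) :=
    Real.rpow_le_rpow_of_exponent_le hd1 (by linarith)
  refine ⟨hP, fun k x hx => (hF k x hx).trans e1, fun k x hx => ?_, fun q k => ?_, hR⟩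
  · have h1 := hH k x hx
    have h2 := hns k x hx.1
    rw [← mul_sum] at h1
    have h3 : |σ * ∑ v ∈ X.nf c x, (X.mv Ty L k v - 1)| ≤ (X.d : ℝ) ^ (1 / 6 : ℝ) := by
      rw [abs_mul, abs_of_nonneg hσ0]
      calc σ * |∑ v ∈ X.nf c x, (X.mv Ty L k v - 1)| ≤ 1 * |∑ v ∈ X.nf c x, (X.mv Ty L k v - 1)| :=
            mul_le_mul_of_nonneg_right hσ1 (abs_nonneg _)
        _ ≤ _ := by linarith
    have h4 : ∑ v, wt k x v - σ * X.lg x = (∑ v, wt k x v - (σ * X.lg x +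
      σ * ∑ v ∈ X.nf c x, (X.mv Ty L k v - 1))) + σ * ∑ v ∈ X.nf c x, (X.mv Ty L k v - 1) := by
      ring
    rw [h4]
    refine (abs_add_le _ _).trans ?_
    linarith
  · have h1 : ∑ x, β q x * (∑ v, wt k x v - σ * X.lg x) =
        ∑ x, β q x * (∑ v, wt k x v - (σ * X.lg x + ∑ v ∈ X.nf c x, σ * (X.mv Ty L k v - 1))) +
        σ * ∑ x, β q x * ∑ v ∈ X.nf c x, (X.mv Ty L k v - 1) := by
      rw [mul_sum, ← sum_add_distrib]
      refine sum_congr rfl fun x _ => ?_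
      rw [← mul_sum]
      ring
    rw [h1]
    refine (abs_add_le _ _).trans ?_
    have h2 : |∑ x, β q x * (∑ v, wt k x v - (σ * X.lg x +
        ∑ v ∈ X.nf c x, σ * (X.mv Ty L k v - 1)))| ≤ C * (X.d : ℝ) ^ (-(c / 30)) := by
      refine (abs_sum_le_sum_abs _ _).trans ?_
      calc ∑ x, |β q x * (∑ v, wt k x v - (σ * X.lg x +
            ∑ v ∈ X.nf c x, σ * (X.mv Ty L k v - 1)))|
          ≤ ∑ x, |β q x| * (X.d : ℝ) ^ (-(c / 30)) := by
            refine sum_le_sum fun x _ => ?_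
            rw [abs_mul]
            by_cases hx : β q x = 0
            · rw [hx, abs_zero, zero_mul, zero_mul]
            · exact mul_le_mul_of_nonneg_left (hH k x (hβ.h1 q x hx)) (abs_nonneg _)
        _ = (∑ x, |β q x|) * (X.d : ℝ) ^ (-(c / 30)) := by rw [sum_mul]
        _ ≤ _ := mul_le_mul_of_nonneg_right (hβ.l1 q) (Real.rpow_nonneg (by linarith) _)
    have h3 : |σ * ∑ x, β q x * ∑ v ∈ X.nf c x, (X.mv Ty L k v - 1)| ≤
        (X.d : ℝ) ^ (-(c / 30)) := by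
      rw [abs_mul, abs_of_nonneg hσ0]
      calc σ * |∑ x, β q x * ∑ v ∈ X.nf c x, (X.mv Ty L k v - 1)|
          ≤ 1 * |∑ x, β q x * ∑ v ∈ X.nf c x, (X.mv Ty L k v - 1)| :=
            mul_le_mul_of_nonneg_right hσ1 (abs_nonneg _)
        _ ≤ (X.d : ℝ) ^ (-(c / 10)) := by linarith [hnse q k]
        _ ≤ _ := e3
    linarith

end kin

section six

theorem six_cases (j : Fin 6) : (∃ k, j = cC k) ∨ (∃ k, j = cQ k) ∨ j = 5 := by
  fin_cases j
  · exact Or.inl ⟨0, rfl⟩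
  · exact Or.inl ⟨1, rfl⟩
  · exact Or.inl ⟨2, rfl⟩
  · exact Or.inr (Or.inl ⟨0, rfl⟩)
  · exact Or.inr (Or.inl ⟨1, rfl⟩)
  · exact Or.inr (Or.inr rfl)

theorem cC_inj {k k' : Fin 3} (h : cC k = cC k') : k = k' := by
  have h1 := congrArg Fin.val h
  exact Fin.ext h1

theorem cQ_inj {k k' : Fin 2} (h : cQ k = cQ k') : k = k' := by
  have h1 : (3 + k.val) = 3 + k'.val := congrArg Fin.val h
  exact Fin.ext (by omega)

theorem cC_cQ {k : Fin 3} {k' : Fin 2} : cC k ≠ cQ k' := by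
  intro h
  have h1 : k.val = 3 + k'.val := congrArg Fin.val h
  have := k.2
  omega

theorem cC_5 {k : Fin 3} : cC k ≠ 5 := by
  intro h
  have h1 : k.val = 5 := congrArg Fin.val h
  have := k.2
  omega

theorem cQ_5 {k : Fin 2} : cQ k ≠ 5 := by
  intro h
  have h1 : 3 + k.val = 5 := congrArg Fin.val h
  have := k.2
  omega

variable {W B : Type u}

theorem LE_symm {X : Dat W B} {v w : W} (h : X.LE v w) : X.LE w v :=
  ⟨h.1.symm, fun h' => h.2 ⟨h'.2, h'.1⟩⟩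

theorem LE_iff {X : Dat W B} {v w : W} : X.LE v w ↔ X.LE w v := ⟨LE_symm, LE_symm⟩

/-- the sum of the weights of the first five classes -/
noncomputable def s5 (wC : Fin 3 → W → W → ℝ) (wQ : Fin 2 → W → W → ℝ) (v w : W) : ℝ :=
  (∑ k, wC k v w) + ∑ k, wQ k v w

/-- the weights of the six classes -/
noncomputable def wA (X : Dat W B) (wC : Fin 3 → W → W → ℝ) (wQ : Fin 2 → W → W → ℝ)
    (j : Fin 6) (v w : W) : ℝ :=
  if X.LE v w then (![wC 0 v w, wC 1 v w, wC 2 v w, wQ 0 v w, wQ 1 v w,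
    1 - s5 wC wQ v w] : Fin 6 → ℝ) j else 0

variable {X : Dat W B} {wC : Fin 3 → W → W → ℝ} {wQ : Fin 2 → W → W → ℝ}

theorem wA_C (hC : ∀ k v w, wC k v w ≠ 0 → X.LE v w) (k : Fin 3) (v w : W) :
    wA X wC wQ (cC k) v w = wC k v w := by
  unfold wA
  by_cases h : X.LE v w
  · rw [if_pos h]
    fin_cases k <;> rfl
  · rw [if_neg h]
    by_contra hn
    exact h (hC k v w (Ne.symm hn))

theorem wA_Q (hQ : ∀ k v w, wQ k v w ≠ 0 → X.LE v w) (k : Fin 2) (v w : W) :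
    wA X wC wQ (cQ k) v w = wQ k v w := by
  unfold wA
  by_cases h : X.LE v w
  · rw [if_pos h]
    fin_cases k <;> rfl
  · rw [if_neg h]
    by_contra hn
    exact h (hQ k v w (Ne.symm hn))

theorem wA_5 (v w : W) (h : X.LE v w) : wA X wC wQ 5 v w = 1 - s5 wC wQ v w := by
  unfold wA
  rw [if_pos h]
  rfl

theorem wA_0 (j : Fin 6) (v w : W) (h : ¬ X.LE v w) : wA X wC wQ j v w = 0 := by
  unfold wA
  rw [if_neg h]

/-- sum over the six classes -/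
theorem sum6 (f : Fin 6 → ℝ) : ∑ j, f j = (∑ k, f (cC k)) + (∑ k, f (cQ k)) + f 5 := by
  rw [Fin.sum_univ_six, Fin.sum_univ_three, Fin.sum_univ_two]
  have e0 : cC 0 = 0 := rfl
  have e1 : cC 1 = 1 := rfl
  have e2 : cC 2 = 2 := rfl
  have e3 : cQ 0 = 3 := rfl
  have e4 : cQ 1 = 4 := rfl
  rw [e0, e1, e2, e3, e4]
  ring

theorem wA_sum (hC : ∀ k v w, wC k v w ≠ 0 → X.LE v w) (hQ : ∀ k v w, wQ k v w ≠ 0 → X.LE v w)
    (v w : W) (h : X.LE v w) : ∑ j, wA X wC wQ j v w = 1 := by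
  rw [sum6]
  simp only [wA_C hC, wA_Q hQ]
  rw [wA_5 v w h]
  unfold s5
  ring

theorem wA_symm (hC : ∀ k v w, wC k v w = wC k w v) (hQ : ∀ k v w, wQ k v w = wQ k w v)
    (j : Fin 6) (v w : W) : wA X wC wQ j v w = wA X wC wQ j w v := by
  unfold wA s5
  by_cases h : X.LE v w
  · rw [if_pos h, if_pos (LE_symm h)]
    have e1 : ∀ k, wC k v w = wC k w v := fun k => hC k v w
    have e2 : ∀ k, wQ k v w = wQ k w v := fun k => hQ k v w
    simp only [e1, e2]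
  · rw [if_neg h, if_neg fun h' => h (LE_symm h')]

end six

section bds
variable {W B : Type u} [Fintype W] [Fintype B] {X : Dat W B} {gr : W → Fin 3} {c : ℝ}

theorem rw_K {v : W} (hv : X.ty (fun κ => κ = Kd.K) v) : X.rw v = none := by
  obtain ⟨b, h1, h2⟩ := hv
  unfold Dat.rw
  rw [h1]
  change (if X.kd b = Kd.S then some b else none) = none
  rw [if_neg]
  intro h3
  have h2' : X.kd b = Kd.K := h2
  rw [h2'] at h3
  cases h3

/-- the three classes of type C together -/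
theorem sumC_le {σ : ℝ} {L : W → Fin 3} {wt : Fin 3 → W → W → ℝ} (hσ : 0 ≤ σ)
    (hP : FrP X (fun κ => κ = Kd.K) gr c σ L wt) (v w : W) :
    ∑ k, wt k v w ≤ 3 * σ * (1 + (X.d : ℝ) ^ (-(c / 60))) := by
  have hδ : 0 ≤ (X.d : ℝ) ^ (-(c / 60)) := Real.rpow_nonneg (Nat.cast_nonneg _) _
  have hg : ((3 : ℕ) : ℝ) / (((3 : ℕ) : ℝ) - 1) = 3 / 2 := by norm_num
  have key : ∀ v w, X.ty (fun κ => κ = Kd.K) v → ¬ X.ty (fun κ => κ = Kd.K) w →
      ∑ k, wt k v w ≤ 3 * σ * (1 + (X.d : ℝ) ^ (-(c / 60))) := by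
    intro v w hv hw
    have h1 : ∑ k, wt k v w = ∑ k ∈ univ.erase (L v), wt k v w := by
      rw [← sum_erase_add _ _ (mem_univ (L v)), hP.fbd (L v) v w hv rfl, add_zero]
    rw [h1]
    have h2 : ∀ k ∈ univ.erase (L v), wt k v w ≤ 3 / 2 * σ * (1 + (X.d : ℝ) ^ (-(c / 60))) := by
      intro k _
      have h3 := hP.up1 k v w hv hw
      rw [hg] at h3
      exact h3
    refine (sum_le_card_nsmul _ _ _ h2).trans (le_of_eq ?_)
    rw [card_erase_of_mem (mem_univ _), card_univ, Fintype.card_fin, nsmul_eq_mul]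
    push_cast
    ring
  by_cases hv : X.ty (fun κ => κ = Kd.K) v
  · by_cases hw : X.ty (fun κ => κ = Kd.K) w
    · have h2 : ∀ k ∈ (univ : Finset (Fin 3)), wt k v w ≤ σ := fun k _ =>
        hP.up3 k v w hv hw (rw_K hv) (rw_K hw)
      refine (sum_le_card_nsmul _ _ _ h2).trans ?_
      rw [card_univ, Fintype.card_fin, nsmul_eq_mul]
      push_cast
      nlinarith
    · exact key v w hv hw
  · by_cases hw : X.ty (fun κ => κ = Kd.K) w
    · have h1 := key w v hw hv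
      refine le_trans (le_of_eq (sum_congr rfl fun k _ => hP.sym k v w)) h1
    · have h2 : ∀ k ∈ (univ : Finset (Fin 3)), wt k v w ≤
          σ * (1 + (X.d : ℝ) ^ (-(c / 60))) := fun k _ => hP.up0 k v w hv hw
      refine (sum_le_card_nsmul _ _ _ h2).trans (le_of_eq ?_)
      rw [card_univ, Fintype.card_fin, nsmul_eq_mul]
      push_cast
      ring

/-- the two classes of type Q together -/
theorem sumQ_le {σ : ℝ} {L : W → Fin 2} {wt : Fin 2 → W → W → ℝ} (hσ : 0 ≤ σ)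
    (hδ1 : (X.d : ℝ) ^ (-(c / 60)) ≤ 1)
    (hP : FrP X (fun κ => κ ≠ Kd.K) gr c σ L wt) (v w : W) :
    ∑ k, wt k v w ≤ 40 * σ := by
  have hδ : 0 ≤ (X.d : ℝ) ^ (-(c / 60)) := Real.rpow_nonneg (Nat.cast_nonneg _) _
  have hg : ((2 : ℕ) : ℝ) / (((2 : ℕ) : ℝ) - 1) = 2 := by norm_num
  have key : ∀ v w, X.ty (fun κ => κ ≠ Kd.K) v → ∑ k, wt k v w ≤ 40 * σ := by
    intro v w hv
    have h1 : ∑ k, wt k v w = ∑ k ∈ univ.erase (L v), wt k v w := by
      rw [← sum_erase_add _ _ (mem_univ (L v)), hP.fbd (L v) v w hv rfl, add_zero]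
    rw [h1]
    have h2 : ∀ k ∈ univ.erase (L v), wt k v w ≤ 40 * σ := by
      intro k _
      by_cases hw : X.ty (fun κ => κ ≠ Kd.K) w
      · exact hP.up2 k v w hv hw
      · have h3 := hP.up1 k v w hv hw
        rw [hg] at h3
        nlinarith
    refine (sum_le_card_nsmul _ _ _ h2).trans (le_of_eq ?_)
    rw [card_erase_of_mem (mem_univ _), card_univ, Fintype.card_fin, nsmul_eq_mul]
    push_cast
    ring
  by_cases hv : X.ty (fun κ => κ ≠ Kd.K) v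
  · exact key v w hv
  · by_cases hw : X.ty (fun κ => κ ≠ Kd.K) w
    · have h1 := key w v hw
      exact le_trans (le_of_eq (sum_congr rfl fun k _ => hP.sym k v w)) h1
    · have h2 : ∀ k ∈ (univ : Finset (Fin 2)), wt k v w ≤
          σ * (1 + (X.d : ℝ) ^ (-(c / 60))) := fun k _ => hP.up0 k v w hv hw
      refine (sum_le_card_nsmul _ _ _ h2).trans ?_
      rw [card_univ, Fintype.card_fin, nsmul_eq_mul]
      push_cast
      nlinarith

/-- every weight of type C is at most `40` -/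
theorem wt_40 {g : ℕ} {Ty : Kd → Prop} {σ : ℝ} {L : W → Fin g} {wt : Fin g → W → W → ℝ}
    (hg : 2 ≤ g) (hσ : 0 ≤ σ) (hσ1 : σ ≤ 1) (hδ1 : (X.d : ℝ) ^ (-(c / 60)) ≤ 1)
    (hP : FrP X Ty gr c σ L wt) (k : Fin g) (v w : W) : wt k v w ≤ 40 := by
  have hδ : 0 ≤ (X.d : ℝ) ^ (-(c / 60)) := Real.rpow_nonneg (Nat.cast_nonneg _) _
  have hg' : (2 : ℝ) ≤ g := by exact_mod_cast hg
  have hg2 : (g : ℝ) / (g - 1) ≤ 2 := by
    rw [div_le_iff₀ (by linarith)]
    linarith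
  have hg3 : 0 ≤ (g : ℝ) / (g - 1) := div_nonneg (by linarith) (by linarith)
  have key : ∀ v w, X.ty Ty v → wt k v w ≤ 40 := by
    intro v w hv
    by_cases hw : X.ty Ty w
    · have := hP.up2 k v w hv hw
      linarith
    · have h1 := hP.up1 k v w hv hw
      have h2 : (g : ℝ) / (g - 1) * σ ≤ 2 := by nlinarith
      have h3 : 0 ≤ (g : ℝ) / (g - 1) * σ := mul_nonneg hg3 hσ
      nlinarith
  by_cases hv : X.ty Ty v
  · exact key v w hv
  · by_cases hw : X.ty Ty w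
    · rw [hP.sym]
      exact key w v hw
    · have h1 := hP.up0 k v w hv hw
      nlinarith

end bds

end Pool.Agent.Work.MP_db9399_ts.helper26
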