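import Pool.Agent.Work.MP_db9399_ts_helper26.Lg3

/-!
# MP_db9399, TSPLIT, block LGT: sums at `O` and at the blocks, lower bounds (helper26)
-/

set_option autoImplicit false

namespace Pool.Agent.Work.MP_db9399_ts.helper26

open Finset Classical
open Pool.Agent.Work.MP_db9399_all (nb)
open Pool.Agent.Work.MP_db9399_clj.helper75 (OO blk nB eE)
open Pool.Agent.Work.MP_db9399_ts

universe u

section deg
variable {W B : Type u} [Fintype W] [Fintype B] {X : Dat W B} {M : ℕ} {C ζ θ c : ℝ}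

theorem mem_nb' (G : SimpleGraph W) (v w : W) : w ∈ nb G v ↔ G.Adj v w := by simp [nb]

omit [Fintype W] [Fintype B] in
theorem Th_adj {v w : W} : X.Th.Adj v w ↔ X.G.Adj v w ∧ ¬ X.Bk.Adj v w := Iff.rfl

/-- number of the light edges at a vertex of `O` -/
theorem lg_eq (hE : Env X M C ζ θ c) (x : W) (hx : X.bl x = none) :
    ∑ v, ind (X.LE x v) = X.lg x := by
  rw [← card_ind]
  unfold Dat.lg
  congr 2
  ext v
  simp only [mem_filter, mem_univ, true_and, mem_nb']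
  constructor
  · rintro ⟨h1, h2⟩
    exact ⟨h1.1, fun h3 => h2 ⟨hx, h3⟩⟩
  · rintro ⟨h1, h2⟩
    refine ⟨⟨h1, fun h3 => ?_⟩, fun h3 => h2 h3.2⟩
    obtain ⟨b, h4, _⟩ := hE.bk x v h3
    rw [hx] at h4
    cases h4

/-- number of the light edges at a light vertex -/
theorem td_eq (x : W) (hx : X.bl x ≠ none) : ∑ v, ind (X.LE x v) = X.td x := by
  rw [← card_ind]
  unfold Dat.td
  congr 2
  ext v
  simp only [mem_filter, mem_univ, true_and, mem_nb']
  constructor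
  · rintro ⟨h1, h2⟩
    exact h1
  · intro h1
    exact ⟨h1, fun h3 => hx h3.1⟩

/-- the thin degrees of the two sides have the same sum -/
theorem td_op (hE : Env X M C ζ θ c) (b : B) (hb : X.kd b = Kd.S) :
    ∑ v ∈ blk X.bl b, X.td v = ∑ v ∈ blk X.bl (X.op b), X.td v := by
  have hmem : ∀ (b : B) (v : W), v ∈ blk X.bl b ↔ X.bl v = some b := by
    intro b v
    simp [blk]
  have h1 : ∀ v, X.td v = X.d - ((nb X.Bk v).card : ℝ) := by
    intro v
    have h2 : nb X.Th v = nb X.G v \ nb X.Bk v := by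
      ext w
      rw [mem_sdiff, mem_nb', mem_nb', mem_nb', Th_adj]
    have h3 : nb X.Bk v ⊆ nb X.G v := by
      intro w hw
      rw [mem_nb'] at hw ⊢
      exact hE.BG hw
    have h4 : (nb X.G v \ nb X.Bk v).card + (nb X.Bk v).card = (nb X.G v).card :=
      card_sdiff_add_card_eq_card h3
    rw [hE.reg v] at h4
    unfold Dat.td
    rw [h2]
    have h5 : (((nb X.G v \ nb X.Bk v).card + (nb X.Bk v).card : ℕ) : ℝ) = X.d := by
      exact_mod_cast h4
    push_cast at h5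
    linarith
  have h2 : ∀ b, X.kd b = Kd.S → ∑ v ∈ blk X.bl b, ((nb X.Bk v).card : ℝ) =
      ∑ v ∈ blk X.bl b, ∑ w ∈ blk X.bl (X.op b), ind (X.Bk.Adj v w) := by
    intro b _
    refine sum_congr rfl fun v hv => ?_
    have h3 : nb X.Bk v = univ.filter fun w => X.Bk.Adj v w := by
      ext w
      rw [mem_nb', mem_filter]
      exact ⟨fun h => ⟨mem_univ _, h⟩, fun h => h.2⟩
    rw [h3, card_ind]
    symm
    refine sum_subset (subset_univ _) ?_
    intro w _ hw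
    refine ind_false fun h4 => hw ?_
    obtain ⟨b', h5, h6⟩ := hE.bk v w h4
    rw [(hmem b v).1 hv] at h5
    rw [hmem, Option.some.inj h5]
    exact h6
  have h3 : ∑ v ∈ blk X.bl b, ((nb X.Bk v).card : ℝ) =
      ∑ v ∈ blk X.bl (X.op b), ((nb X.Bk v).card : ℝ) := by
    rw [h2 b hb, h2 (X.op b) ((hE.opk b).1.trans hb), hE.opp, sum_comm]
    refine sum_congr rfl fun v _ => sum_congr rfl fun w _ => ?_
    congr 1
    exact propext ⟨fun h => h.symm, fun h => h.symm⟩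
  simp only [h1, sum_sub_distrib, sum_const, nsmul_eq_mul]
  rw [h3, (hE.opS b hb).2]

end deg

section sums
variable {W B τ' : Type u} [Fintype W] [Fintype B] [Fintype τ'] {X : Dat W B} {gr : W → Fin 3}
  {M : ℕ} {C ζ θ c ε1 σC σQ : ℝ} {off : Fin 6 → W → ℝ} {β : τ' → W → ℝ} {th : W → Fin 3}
  {pt : W → Fin 2} {wC : Fin 3 → W → W → ℝ} {wQ : Fin 2 → W → W → ℝ} {σ : Fin 6 → ℝ}

/-- the shares -/
structure Sh (σ : Fin 6 → ℝ) (σC σQ : ℝ) : Prop where
  C : ∀ k, σ (cC k) = σC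
  Q : ∀ k, σ (cQ k) = σQ
  R : σ 5 = 1 - 3 * σC - 2 * σQ

theorem Kin.le {g : ℕ} {Ty : Kd → Prop} {σ : ℝ} {off : Fin g → W → ℝ} {L : W → Fin g}
    {wt : Fin g → W → W → ℝ} (h : Kin X Ty gr c σ C ε1 off β L wt) (k : Fin g) (v w : W)
    (hn : wt k v w ≠ 0) : X.LE v w := h.P.adj k v w hn

/-- row sums of the last class -/
theorem row5 (hC : ∀ k v w, wC k v w ≠ 0 → X.LE v w) (hQ : ∀ k v w, wQ k v w ≠ 0 → X.LE v w)
    (x : W) : ∑ v, wA X wC wQ 5 x v =
      ∑ v, ind (X.LE x v) - (∑ k, ∑ v, wC k x v) - ∑ k, ∑ v, wQ k x v := by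
  rw [sum_comm (f := fun k v => wC k x v), sum_comm (f := fun k v => wQ k x v),
    ← sum_sub_distrib, ← sum_sub_distrib]
  refine sum_congr rfl fun v _ => ?_
  by_cases h : X.LE x v
  · rw [wA_5 x v h, ind_true h]
    unfold s5
    ring
  · rw [wA_0 5 x v h, ind_false h]
    have e1 : ∀ k, wC k x v = 0 := fun k => by
      by_contra hn
      exact h (hC k x v hn)
    have e2 : ∀ k, wQ k x v = 0 := fun k => by
      by_contra hn
      exact h (hQ k x v hn)
    simp [e1, e2]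

theorem hubF (hC : Kin X (fun κ => κ = Kd.K) gr c σC C ε1 (fun k => off (cC k)) β th wC)
    (hQ : Kin X (fun κ => κ ≠ Kd.K) gr c σQ C ε1 (fun k => off (cQ k)) β pt wQ)
    (hs : Sh σ σC σQ) (x : W) (j : Fin 6) (hx : X.fr x) (hj : j ≠ 5) :
    |∑ v, wA X wC wQ j x v - (σ j * X.lg x + off j x)| ≤ 1 := by
  rcases six_cases j with ⟨k, rfl⟩ | ⟨k, rfl⟩ | h
  · simp only [wA_C hC.le]
    rw [hs.C]
    exact hC.F k x hx
  · simp only [wA_Q hQ.le]
    rw [hs.Q]
    exact hQ.F k x hx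
  · exact absurd h hj

theorem dev5 (hE : Env X M C ζ θ c)
    (hC : Kin X (fun κ => κ = Kd.K) gr c σC C ε1 (fun k => off (cC k)) β th wC)
    (hQ : Kin X (fun κ => κ ≠ Kd.K) gr c σQ C ε1 (fun k => off (cQ k)) β pt wQ)
    (hs : Sh σ σC σQ) (x : W) (hx : X.bl x = none) :
    ∑ v, wA X wC wQ 5 x v - σ 5 * X.lg x =
      -(∑ k, (∑ v, wC k x v - σC * X.lg x)) - ∑ k, (∑ v, wQ k x v - σQ * X.lg x) := by
  rw [row5 hC.le hQ.le, lg_eq hE x hx, hs.R, sum_sub_distrib, sum_sub_distrib, sum_const,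
    sum_const, card_univ, card_univ, Fintype.card_fin, Fintype.card_fin, nsmul_eq_mul,
    nsmul_eq_mul]
  push_cast
  ring

theorem hubH (hE : Env X M C ζ θ c)
    (hC : Kin X (fun κ => κ = Kd.K) gr c σC C ε1 (fun k => off (cC k)) β th wC)
    (hQ : Kin X (fun κ => κ ≠ Kd.K) gr c σQ C ε1 (fun k => off (cQ k)) β pt wQ)
    (hs : Sh σ σC σQ) (x : W) (j : Fin 6) (hx : X.h1 x) :
    |∑ v, wA X wC wQ j x v - σ j * X.lg x| ≤ 10 * (X.d : ℝ) ^ (1 / 6 : ℝ) := by
  have hp : (0 : ℝ) ≤ (X.d : ℝ) ^ (1 / 6 : ℝ) := Real.rpow_nonneg (Nat.cast_nonneg _) _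
  rcases six_cases j with ⟨k, rfl⟩ | ⟨k, rfl⟩ | rfl
  · simp only [wA_C hC.le]
    rw [hs.C]
    have := hC.H k x hx
    linarith
  · simp only [wA_Q hQ.le]
    rw [hs.Q]
    have := hQ.H k x hx
    linarith
  · rw [dev5 hE hC hQ hs x hx.1]
    have h1 : |∑ k, (∑ v, wC k x v - σC * X.lg x)| ≤ 3 * (2 * (X.d : ℝ) ^ (1 / 6 : ℝ)) := by
      refine (abs_sum_le_sum_abs _ _).trans ?_
      refine (sum_le_card_nsmul _ _ _ fun k _ => hC.H k x hx).trans (le_of_eq ?_)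
      rw [card_univ, Fintype.card_fin, nsmul_eq_mul]
      push_cast
      ring
    have h2 : |∑ k, (∑ v, wQ k x v - σQ * X.lg x)| ≤ 2 * (2 * (X.d : ℝ) ^ (1 / 6 : ℝ)) := by
      refine (abs_sum_le_sum_abs _ _).trans ?_
      refine (sum_le_card_nsmul _ _ _ fun k _ => hQ.H k x hx).trans (le_of_eq ?_)
      rw [card_univ, Fintype.card_fin, nsmul_eq_mul]
      push_cast
      ring
    have h3 := abs_sub (-(∑ k, (∑ v, wC k x v - σC * X.lg x)))
      (∑ k, (∑ v, wQ k x v - σQ * X.lg x))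
    rw [abs_neg] at h3
    linarith

theorem hubT (hE : Env X M C ζ θ c) (hc1 : 0 ≤ C)
    (hC : Kin X (fun κ => κ = Kd.K) gr c σC C ε1 (fun k => off (cC k)) β th wC)
    (hQ : Kin X (fun κ => κ ≠ Kd.K) gr c σQ C ε1 (fun k => off (cQ k)) β pt wQ)
    (hs : Sh σ σC σQ) (hβ : ∀ q x, β q x ≠ 0 → X.h1 x) (q : τ') (j : Fin 6) :
    |∑ x, β q x * (∑ v, wA X wC wQ j x v - σ j * X.lg x)| ≤
      5 * ((C + 1) * (X.d : ℝ) ^ (-(c / 30))) := by
  have hp : (0 : ℝ) ≤ (X.d : ℝ) ^ (-(c / 30)) := Real.rpow_nonneg (Nat.cast_nonneg _) _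
  have hp2 : 0 ≤ (C + 1) * (X.d : ℝ) ^ (-(c / 30)) := mul_nonneg (by linarith) hp
  rcases six_cases j with ⟨k, rfl⟩ | ⟨k, rfl⟩ | rfl
  · simp only [wA_C hC.le]
    rw [hs.C]
    have := hC.T q k
    linarith
  · simp only [wA_Q hQ.le]
    rw [hs.Q]
    have := hQ.T q k
    linarith
  · have h0 : ∑ x, β q x * (∑ v, wA X wC wQ 5 x v - σ 5 * X.lg x) =
        -(∑ k, ∑ x, β q x * (∑ v, wC k x v - σC * X.lg x)) -
          ∑ k, ∑ x, β q x * (∑ v, wQ k x v - σQ * X.lg x) := by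
      rw [sum_comm (f := fun k x => β q x * (∑ v, wC k x v - σC * X.lg x)),
        sum_comm (f := fun k x => β q x * (∑ v, wQ k x v - σQ * X.lg x)),
        ← sum_neg_distrib, ← sum_sub_distrib]
      refine sum_congr rfl fun x _ => ?_
      by_cases hx : β q x = 0
      · simp [hx]
      · rw [dev5 hE hC hQ hs x (hβ q x hx).1, ← mul_sum, ← mul_sum]
        ring
    rw [h0]
    have h1 : |∑ k, ∑ x, β q x * (∑ v, wC k x v - σC * X.lg x)| ≤
        3 * ((C + 1) * (X.d : ℝ) ^ (-(c / 30))) := by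
      refine (abs_sum_le_sum_abs _ _).trans ?_
      refine (sum_le_card_nsmul _ _ _ fun k _ => hC.T q k).trans (le_of_eq ?_)
      rw [card_univ, Fintype.card_fin, nsmul_eq_mul]
      push_cast
      ring
    have h2 : |∑ k, ∑ x, β q x * (∑ v, wQ k x v - σQ * X.lg x)| ≤
        2 * ((C + 1) * (X.d : ℝ) ^ (-(c / 30))) := by
      refine (abs_sum_le_sum_abs _ _).trans ?_
      refine (sum_le_card_nsmul _ _ _ fun k _ => hQ.T q k).trans (le_of_eq ?_)
      rw [card_univ, Fintype.card_fin, nsmul_eq_mul]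
      push_cast
      ring
    have h3 := abs_sub (-(∑ k, ∑ x, β q x * (∑ v, wC k x v - σC * X.lg x)))
      (∑ k, ∑ x, β q x * (∑ v, wQ k x v - σQ * X.lg x))
    rw [abs_neg] at h3
    linarith

/-- half of a functional is in every part -/
theorem half (b : B) (hb : X.kd b ≠ Kd.K) (F : W → ℝ) (i : Fin 2) (E : ℝ)
    (h : |∑ v ∈ blk X.bl b, F v * (X.mv (fun κ => κ ≠ Kd.K) pt i v - 1)| ≤ E) :
    |∑ v ∈ (blk X.bl b).filter (fun v => pt v = i), F v -
      (∑ v ∈ blk X.bl b, F v) / 2| ≤ E / 2 := by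
  have h1 : ∑ v ∈ blk X.bl b, F v * (X.mv (fun κ => κ ≠ Kd.K) pt i v - 1) =
      ∑ v ∈ blk X.bl b, F v - 2 * ∑ v ∈ (blk X.bl b).filter (fun v => pt v = i), F v := by
    rw [sum_filter, mul_sum, ← sum_sub_distrib]
    refine sum_congr rfl fun v hv => ?_
    have hv' : X.bl v = some b := by simpa [blk] using hv
    rw [mv_ty X _ pt i v ⟨b, hv', hb⟩]
    by_cases h2 : pt v = i
    · rw [if_pos h2, if_pos h2]
      ring
    · rw [if_neg h2, if_neg h2]
      norm_num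
  rw [h1] at h
  rw [abs_le] at h ⊢
  constructor <;> linarith

/-- sums at the parts of the blocks -/
theorem rowP (hC : Kin X (fun κ => κ = Kd.K) gr c σC C ε1 (fun k => off (cC k)) β th wC)
    (hQ : Kin X (fun κ => κ ≠ Kd.K) gr c σQ C ε1 (fun k => off (cQ k)) β pt wQ)
    (hd0 : (0 : ℝ) ≤ X.d) (hε : 0 ≤ ε1)
    (hf : ∀ k i b, X.kd b = Kd.S → |∑ v ∈ blk X.bl b, (∑ w, wC k v w) *
      (X.mv (fun κ => κ ≠ Kd.K) pt i v - 1)| ≤ ε1 * X.d)
    (ht : ∀ i b, X.kd b = Kd.S → |∑ v ∈ blk X.bl b, X.td v *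
      (X.mv (fun κ => κ ≠ Kd.K) pt i v - 1)| ≤ ε1 * X.d) (i : Fin 2) (j : Fin 6) :
    ∃ ρ : ℝ, ∀ b, X.kd b = Kd.S →
      |∑ v ∈ (blk X.bl b).filter (fun v => pt v = i), ∑ w, wA X wC wQ j v w -
        ρ * ∑ v ∈ blk X.bl b, X.td v| ≤ 40 * (ε1 * X.d) := by
  have hεd : 0 ≤ ε1 * X.d := mul_nonneg hε hd0
  have hSK : ∀ b, X.kd b = Kd.S → X.kd b ≠ Kd.K := by
    intro b hb h
    rw [hb] at h
    cases h
  -- type C
  have hCi : ∀ k b, X.kd b = Kd.S →
      |∑ v ∈ (blk X.bl b).filter (fun v => pt v = i), ∑ w, wC k v w -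
        σC / 2 * ∑ v ∈ blk X.bl b, X.td v| ≤ 11 / 2 * (ε1 * X.d) := by
    intro k b hb
    have h1 := half b (hSK b hb) (fun v => ∑ w, wC k v w) i _ (hf k i b hb)
    have h2 := hC.R k b hb
    rw [abs_le] at h1 h2 ⊢
    constructor <;> linarith
  -- type Q
  have hQi : ∀ k, ∃ ρ : ℝ, ∀ b, X.kd b = Kd.S →
      |∑ v ∈ (blk X.bl b).filter (fun v => pt v = i), ∑ w, wQ k v w -
        ρ * ∑ v ∈ blk X.bl b, X.td v| ≤ 10 * (ε1 * X.d) := by
    intro k
    have hz : ∀ b, X.kd b = Kd.S → ∀ v ∈ blk X.bl b, pt v = k → ∑ w, wQ k v w = 0 := by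
      intro b hb v hv hvk
      have hv' : X.bl v = some b := by simpa [blk] using hv
      exact sum_eq_zero fun w _ => hQ.P.fbd k v w ⟨b, hv', hSK b hb⟩ hvk
    by_cases hk : k = i
    · refine ⟨0, fun b hb => ?_⟩
      have h1 : ∑ v ∈ (blk X.bl b).filter (fun v => pt v = i), ∑ w, wQ k v w = 0 := by
        refine sum_eq_zero fun v hv => ?_
        obtain ⟨h2, h3⟩ := mem_filter.1 hv
        exact hz b hb v h2 (h3.trans hk.symm)
      rw [h1, zero_mul, sub_zero, abs_zero]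
      linarith
    · refine ⟨σQ, fun b hb => ?_⟩
      have h1 : ∑ v ∈ (blk X.bl b).filter (fun v => pt v = i), ∑ w, wQ k v w =
          ∑ v ∈ blk X.bl b, ∑ w, wQ k v w := by
        refine sum_filter_of_ne fun v hv hne => ?_
        by_contra h2
        apply hne
        apply hz b hb v hv
        revert h2 hk
        generalize pt v = p
        fin_cases i <;> fin_cases k <;> fin_cases p <;> simp
      rw [h1]
      have h2 := hQ.R k b hb
      linarith
  rcases six_cases j with ⟨k, rfl⟩ | ⟨k, rfl⟩ | rfl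
  · refine ⟨σC / 2, fun b hb => ?_⟩
    simp only [wA_C hC.le]
    have := hCi k b hb
    linarith
  · obtain ⟨ρ, h1⟩ := hQi k
    refine ⟨ρ, fun b hb => ?_⟩
    simp only [wA_Q hQ.le]
    have := h1 b hb
    linarith
  · choose ρ hρ using hQi
    refine ⟨1 / 2 - 3 * (σC / 2) - ∑ k, ρ k, fun b hb => ?_⟩
    have h1 : ∑ v ∈ (blk X.bl b).filter (fun v => pt v = i), ∑ w, wA X wC wQ 5 v w =
        ∑ v ∈ (blk X.bl b).filter (fun v => pt v = i), X.td v -
        (∑ k, ∑ v ∈ (blk X.bl b).filter (fun v => pt v = i), ∑ w, wC k v w) -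
        ∑ k, ∑ v ∈ (blk X.bl b).filter (fun v => pt v = i), ∑ w, wQ k v w := by
      rw [sum_comm (s := (univ : Finset (Fin 3))), sum_comm (s := (univ : Finset (Fin 2))),
        ← sum_sub_distrib, ← sum_sub_distrib]
      refine sum_congr rfl fun v hv => ?_
      have hv' : X.bl v = some b := by simpa [blk] using (mem_filter.1 hv).1
      rw [row5 hC.le hQ.le, td_eq v (by rw [hv']; exact Option.some_ne_none _)]
    have h2 := half b (hSK b hb) X.td i _ (ht i b hb)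
    have h3 : |(∑ k, ∑ v ∈ (blk X.bl b).filter (fun v => pt v = i), ∑ w, wC k v w) -
        3 * (σC / 2) * ∑ v ∈ blk X.bl b, X.td v| ≤ 3 * (11 / 2 * (ε1 * X.d)) := by
      have h4 : (∑ k : Fin 3, ∑ v ∈ (blk X.bl b).filter (fun v => pt v = i), ∑ w, wC k v w) -
        3 * (σC / 2) * ∑ v ∈ blk X.bl b, X.td v = ∑ k : Fin 3,
          (∑ v ∈ (blk X.bl b).filter (fun v => pt v = i), ∑ w, wC k v w -
            σC / 2 * ∑ v ∈ blk X.bl b, X.td v) := by
        rw [sum_sub_distrib, sum_const, card_univ, Fintype.card_fin, nsmul_eq_mul]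
        push_cast
        ring
      rw [h4]
      refine (abs_sum_le_sum_abs _ _).trans ?_
      refine (sum_le_card_nsmul _ _ _ fun k _ => hCi k b hb).trans (le_of_eq ?_)
      rw [card_univ, Fintype.card_fin, nsmul_eq_mul]
      push_cast
      ring
    have h5 : |(∑ k, ∑ v ∈ (blk X.bl b).filter (fun v => pt v = i), ∑ w, wQ k v w) -
        (∑ k, ρ k) * ∑ v ∈ blk X.bl b, X.td v| ≤ 2 * (10 * (ε1 * X.d)) := by
      rw [sum_mul, ← sum_sub_distrib]
      refine (abs_sum_le_sum_abs _ _).trans ?_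
      refine (sum_le_card_nsmul _ _ _ fun k _ => hρ k b hb).trans (le_of_eq ?_)
      rw [card_univ, Fintype.card_fin, nsmul_eq_mul]
      push_cast
      ring
    rw [h1]
    rw [abs_le] at h2 h3 h5 ⊢
    have e1 : (1 / 2 - 3 * (σC / 2) - ∑ k, ρ k) * ∑ v ∈ blk X.bl b, X.td v =
      (∑ v ∈ blk X.bl b, X.td v) / 2 - 3 * (σC / 2) * ∑ v ∈ blk X.bl b, X.td v -
        (∑ k, ρ k) * ∑ v ∈ blk X.bl b, X.td v := by ring
    rw [e1]
    constructor <;> linarith [h2.1, h2.2, h3.1, h3.2, h5.1, h5.2]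

end sums

end Pool.Agent.Work.MP_db9399_ts.helper26
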