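import Pool.Agent.Work.MP_db9399_ts_helper26.Lg4

/-!
# MP_db9399, TSPLIT, block LGT: lower bounds, labels (helper26)
-/

set_option autoImplicit false

namespace Pool.Agent.Work.MP_db9399_ts.helper26

open Finset Classical
open Pool.Agent.Work.MP_db9399_all (nb)
open Pool.Agent.Work.MP_db9399_clj.helper75 (OO blk nB eE)
open Pool.Agent.Work.MP_db9399_ts

universe u

section low
variable {W B : Type u} [Fintype W] [Fintype B] {X : Dat W B} {gr : W → Fin 3}
  {c σC σQ η : ℝ} {th : W → Fin 3}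
  {pt : W → Fin 2} {wC : Fin 3 → W → W → ℝ} {wQ : Fin 2 → W → W → ℝ}

/-- `σC` is at most `(1 - η) / 3 + η / 10^4`, `σQ` at most `101 η / 10^4` -/
theorem s5_le (hC : FrP X (fun κ => κ = Kd.K) gr c σC th wC)
    (hQ : FrP X (fun κ => κ ≠ Kd.K) gr c σQ pt wQ) (hC0 : 0 ≤ σC) (hQ0 : 0 ≤ σQ)
    (hη : 0 ≤ η) (hη1 : η ≤ 1) (hC1 : 3 * σC ≤ 1 - η + 3 * (η / 10 ^ 4))
    (hQ1 : σQ ≤ 101 * (η / 10 ^ 4)) (hδ : (X.d : ℝ) ^ (-(c / 60)) ≤ η / 40) (v w : W) :
    s5 wC wQ v w ≤ 1 - η / 2 := by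
  have h0 : 0 ≤ (X.d : ℝ) ^ (-(c / 60)) := Real.rpow_nonneg (Nat.cast_nonneg _) _
  have h1 := sumC_le hC0 hC v w
  have h2 := sumQ_le hQ0 (by linarith) hQ v w
  unfold s5
  have h3 : 3 * σC * (X.d : ℝ) ^ (-(c / 60)) ≤ 1 * (η / 40) := by
    refine mul_le_mul (by linarith) hδ h0 (by norm_num)
  linarith

theorem wA_nonneg (hC : FrP X (fun κ => κ = Kd.K) gr c σC th wC)
    (hQ : FrP X (fun κ => κ ≠ Kd.K) gr c σQ pt wQ) (hs : ∀ v w, s5 wC wQ v w ≤ 1)
    (j : Fin 6) (v w : W) : 0 ≤ wA X wC wQ j v w := by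
  rcases six_cases j with ⟨k, rfl⟩ | ⟨k, rfl⟩ | rfl
  · rw [wA_C hC.adj]
    exact hC.nn k v w
  · rw [wA_Q hQ.adj]
    exact hQ.nn k v w
  · by_cases h : X.LE v w
    · rw [wA_5 v w h]
      have := hs v w
      linarith
    · rw [wA_0 5 v w h]

/-- a used class is allowed -/
theorem wA_al (hC : FrP X (fun κ => κ = Kd.K) gr c σC th wC)
    (hQ : FrP X (fun κ => κ ≠ Kd.K) gr c σQ pt wQ) (j : Fin 6) (v w : W)
    (h : 0 < wA X wC wQ j v w) : X.al th pt j v := by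
  constructor
  · intro hv hj
    rw [hj, wA_C hC.adj, hC.fbd _ v w hv rfl] at h
    exact lt_irrefl _ h
  · intro hv hj
    rw [hj, wA_Q hQ.adj, hQ.fbd _ v w hv rfl] at h
    exact lt_irrefl _ h

/-- lower bound for one kind of classes -/
theorem lo_gen {g : ℕ} {Ty : Kd → Prop} {σ : ℝ} {L : W → Fin g} {wt : Fin g → W → W → ℝ}
    (hP : FrP X Ty gr c σ L wt) (k : Fin g) (v w : W) (h : X.LE v w)
    (hv : X.ty Ty v → L v ≠ k) (hw : X.ty Ty w → L w ≠ k)
    (hg : ∀ b b', X.bl v = some b → X.bl w = some b' → gr v ≠ gr w ∧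
      (X.cb b = X.cb b' → (X.d : ℝ) ≤ X.e b b')) : σ / 2 ≤ wt k v w := by
  by_cases hb : X.ty Ty v ∧ X.ty Ty w
  · obtain ⟨b, h1⟩ := ty_some hb.1
    obtain ⟨b', h2⟩ := ty_some hb.2
    exact hP.lo2 k v w b b' h.1 h1 h2 hv hw (hg b b' h1 h2).1 (hg b b' h1 h2).2
  · exact hP.lo k v w h.1 h.2 hv hw hb

omit [Fintype W] [Fintype B] in
theorem lab_K {v : W} (h : X.ty (fun κ => κ = Kd.K) v) : X.lab th pt v = cC (th v) := by
  unfold Dat.lab
  exact if_pos h

omit [Fintype W] [Fintype B] in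
theorem not_KN {v : W} (h : X.ty (fun κ => κ ≠ Kd.K) v) : ¬ X.ty (fun κ => κ = Kd.K) v := by
  obtain ⟨b, h1, h2⟩ := h
  rintro ⟨b', h3, h4⟩
  rw [h1] at h3
  rw [← Option.some.inj h3] at h4
  exact h2 h4

omit [Fintype W] [Fintype B] in
theorem lab_N {v : W} (h : X.ty (fun κ => κ ≠ Kd.K) v) : X.lab th pt v = cQ (pt v) := by
  unfold Dat.lab
  rw [if_neg (show ¬ X.kK v from not_KN h)]
  exact if_pos h

/-- **Lower bound of the weights.** -/
theorem wA_lo (hC : FrP X (fun κ => κ = Kd.K) gr c σC th wC)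
    (hQ : FrP X (fun κ => κ ≠ Kd.K) gr c σQ pt wQ) {lam : ℝ} (hC1 : lam ≤ σC / 2)
    (hQ1 : lam ≤ σQ / 2) (h5 : ∀ v w, s5 wC wQ v w ≤ 1 - lam) (j : Fin 6) (v w : W)
    (h : X.LE v w) (hv : X.lab th pt v = 5 ∨ j ≠ X.lab th pt v)
    (hw : X.lab th pt w = 5 ∨ j ≠ X.lab th pt w)
    (hg : ∀ b b', X.bl v = some b → X.bl w = some b' → gr v ≠ gr w ∧
      (X.cb b = X.cb b' → (X.d : ℝ) ≤ X.e b b')) : lam ≤ wA X wC wQ j v w := by
  rcases six_cases j with ⟨k, rfl⟩ | ⟨k, rfl⟩ | rfl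
  · rw [wA_C hC.adj]
    have key : ∀ v, (X.lab th pt v = 5 ∨ cC k ≠ X.lab th pt v) →
        X.ty (fun κ => κ = Kd.K) v → th v ≠ k := by
      intro v hv h1 h2
      rw [lab_K h1, h2] at hv
      rcases hv with hv | hv
      · exact cC_5 hv
      · exact hv rfl
    exact hC1.trans (lo_gen hC k v w h (key v hv) (key w hw) hg)
  · rw [wA_Q hQ.adj]
    have key : ∀ v, (X.lab th pt v = 5 ∨ cQ k ≠ X.lab th pt v) →
        X.ty (fun κ => κ ≠ Kd.K) v → pt v ≠ k := by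
      intro v hv h1 h2
      rw [lab_N h1, h2] at hv
      rcases hv with hv | hv
      · exact cQ_5 hv
      · exact hv rfl
    exact hQ1.trans (lo_gen hQ k v w h (key v hv) (key w hw) hg)
  · rw [wA_5 v w h]
    have := h5 v w
    linarith

end low

section labels
variable {W B : Type u} {X : Dat W B} {th : W → Fin 3} {pt : W → Fin 2}

/-- the third in a label -/
def oC (f : Fin 6) : Option (Fin 3) := if h : f.val < 3 then some ⟨f.val, h⟩ else none

/-- the part in a label -/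
def oQ (f : Fin 6) : Option (Fin 2) :=
  if h : 3 ≤ f.val ∧ f.val < 5 then some ⟨f.val - 3, by omega⟩ else none

theorem oC_C (k : Fin 3) : oC (cC k) = some k := by
  fin_cases k <;> rfl

theorem oQ_C (k : Fin 3) : oQ (cC k) = none := by
  fin_cases k <;> rfl

theorem oC_Q (k : Fin 2) : oC (cQ k) = none := by
  fin_cases k <;> rfl

theorem oQ_Q (k : Fin 2) : oQ (cQ k) = some k := by
  fin_cases k <;> rfl

theorem oC_5 : oC 5 = none := rfl
theorem oQ_5 : oQ 5 = none := rfl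

theorem lt3 {f : Fin 6} (h : f < 3) : ∃ k, f = cC k := by
  rcases six_cases f with h1 | ⟨k, rfl⟩ | rfl
  · exact h1
  · exfalso
    revert h
    fin_cases k <;> decide
  · exfalso
    revert h
    decide

theorem eq34 {f : Fin 6} (h : f = 3 ∨ f = 4) : ∃ k, f = cQ k := by
  rcases h with rfl | rfl
  · exact ⟨0, rfl⟩
  · exact ⟨1, rfl⟩

/-- the kind of a vertex with a label with a third -/
theorem kin_C {v : W} {f : Fin 6} (h : X.kin v f) (ho : oC f ≠ none) :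
    X.ty (fun κ => κ = Kd.K) v := by
  rcases h with h | h | h
  · exact h.1
  · obtain ⟨k, rfl⟩ := eq34 h.2
    exact absurd (oC_Q k) ho
  · rw [h.2] at ho
    exact absurd oC_5 ho

theorem kin_Q {v : W} {f : Fin 6} (h : X.kin v f) (ho : oQ f ≠ none) :
    X.ty (fun κ => κ ≠ Kd.K) v := by
  rcases h with h | h | h
  · obtain ⟨k, rfl⟩ := lt3 h.2
    exact absurd (oQ_C k) ho
  · exact h.1
  · rw [h.2] at ho
    exact absurd oQ_5 ho

theorem lab_O {v : W} (h : X.bl v = none) : X.lab th pt v = 5 := by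
  have h1 : ∀ Ty, ¬ X.ty Ty v := by
    rintro Ty ⟨b, hb, _⟩
    rw [h] at hb
    cases hb
  unfold Dat.lab
  rw [if_neg (show ¬ X.kK v from h1 _), if_neg (show ¬ X.kN v from h1 _)]

/-- the labels of the vertices of the right kind -/
theorem lab_iff {v : W} {f : Fin 6} (h : X.kin v f) :
    X.lab th pt v = f ↔ (∀ k, oC f = some k → th v = k) ∧ (∀ k, oQ f = some k → pt v = k) := by
  rcases h with h | h | h
  · obtain ⟨k, rfl⟩ := lt3 h.2
    rw [lab_K h.1, oC_C, oQ_C]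
    constructor
    · intro h1
      refine ⟨fun k' hk' => ?_, fun k' hk' => (by cases hk')⟩
      rw [← Option.some.inj hk']
      exact cC_inj h1
    · intro h1
      rw [h1.1 k rfl]
  · obtain ⟨k, rfl⟩ := eq34 h.2
    rw [lab_N h.1, oC_Q, oQ_Q]
    constructor
    · intro h1
      refine ⟨fun k' hk' => (by cases hk'), fun k' hk' => ?_⟩
      rw [← Option.some.inj hk']
      exact cQ_inj h1
    · intro h1
      rw [h1.2 k rfl]
  · rw [h.2, lab_O h.1, oC_5, oQ_5]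
    exact ⟨fun _ => ⟨fun k hk => (by cases hk), fun k hk => (by cases hk)⟩, fun _ => rfl⟩

end labels

end Pool.Agent.Work.MP_db9399_ts.helper26
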