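import Pool.Agent.Work.MP_db9399_ts_helper26.Lg5

/-!
# MP_db9399, TSPLIT, block LGT: the shares of the sets of edges (helper26)
-/

set_option autoImplicit false

namespace Pool.Agent.Work.MP_db9399_ts.helper26

open Finset Classical
open Pool.Agent.Work.MP_db9399_all (nb)
open Pool.Agent.Work.MP_db9399_clj.helper75 (OO blk nB eE)
open Pool.Agent.Work.MP_db9399_ts

universe u

section sh
variable {W B τ τ' τ'' : Type u} [Fintype W] [Fintype B] [Fintype τ] [Fintype τ'] [Fintype τ'']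

/-- the relations of the first call -/
def R1 (Γ : τ'' → W → W → Prop) (r : Ix τ'') : W → W → Prop := Γ r.1

/-- the relations of the second call -/
def R2 (th : W → Fin 3) (Γ : τ'' → W → W → Prop) (r : Ix τ'') : W → W → Prop :=
  res th (oC r.2.1) (oC r.2.2) (Γ r.1)

/-- the relations of the third call -/
def R3 (th : W → Fin 3) (pt : W → Fin 2) (Γ : τ'' → W → W → Prop) (r : Ix τ'') :
    W → W → Prop := res pt (oQ r.2.1) (oQ r.2.2) (R2 th Γ r)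

omit [Fintype W] [Fintype τ''] in
theorem R2_sub (th : W → Fin 3) (Γ : τ'' → W → W → Prop) (r : Ix τ'') (v w : W)
    (h : R2 th Γ r v w) : Γ r.1 v w := h.1

omit [Fintype W] [Fintype τ''] in
theorem R3_sub (th : W → Fin 3) (pt : W → Fin 2) (Γ : τ'' → W → W → Prop) (r : Ix τ'')
    (v w : W) (h : R3 th pt Γ r v w) : Γ r.1 v w := h.1.1

variable {X : Dat W B} {gr : W → Fin 3} {A C : ℝ} {Γ : τ'' → W → W → Prop} {Δ : τ'' → ℝ}
  {α : τ → W → ℝ} {β : τ' → W → ℝ} {th : W → Fin 3} {pt : W → Fin 2}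

omit [Fintype τ''] [Fintype W] [Fintype B] in
theorem R3_iff (q : τ'') (f f' : Fin 6)
    (hk : ∀ v w, Γ q v w → X.kin v f ∧ X.kin w f') (v w : W) :
    R3 th pt Γ (q, f, f') v w ↔ Γ q v w ∧ X.lab th pt v = f ∧ X.lab th pt w = f' := by
  constructor
  · rintro ⟨⟨h1, h2, h3⟩, h4, h5⟩
    exact ⟨h1, (lab_iff (hk v w h1).1).2 ⟨h2, h4⟩, (lab_iff (hk v w h1).2).2 ⟨h3, h5⟩⟩
  · rintro ⟨h1, h2, h3⟩
    have h4 := (lab_iff (hk v w h1).1).1 h2
    have h5 := (lab_iff (hk v w h1).2).1 h3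
    exact ⟨⟨h1, h4.1, h5.1⟩, h4.2, h5.2⟩

theorem ite_ind (p : Prop) [Decidable p] : (if p then (1 : ℝ) else 0) = ind p := by
  by_cases h : p
  · rw [if_pos h, ind_true h]
  · rw [if_neg h, ind_false h]

/-- sum of indicators -/
theorem sum_ind_mul (R : W → W → Prop) (P : W → W → Prop) (T : W → W → Prop)
    (h : ∀ v w, T v w ↔ R v w ∧ P v w) :
    ∑ v, ∑ w, ind (R v w) * ind (P v w) = ng T := by
  rw [ng_eq]
  unfold lk
  refine sum_congr rfl fun v _ => sum_congr rfl fun w _ => ?_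
  rw [ind_mul]
  congr 1
  exact propext (h v w).symm

/-- **Shares of the sets of edges.** -/
theorem sh_lem {m m' : ℕ} {c Cm Cm' : ℝ} {u : Fin m → W → ℝ} {U : Fin m → B → ℝ}
    {u' : Fin m' → W → ℝ} {U' : Fin m' → B → ℝ} {cnt : B → Fin 3 → ℕ} {cnt' : B → Fin 2 → ℕ}
    {wt : Fin 6 → W → W → ℝ} {cl : W → W → Fin 6} {lam : ℝ}
    (hΓ : GamH X gr A Γ Δ)
    (h1L : LabX X (fun κ => κ = Kd.K) c Cm (aT X (fun κ => κ = Kd.K) α (R1 Γ))
      (gT X (fun κ => κ = Kd.K) (R1 Γ)) β u U cnt th)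
    (h2L : LabX X (fun κ => κ ≠ Kd.K) c Cm' (aT X (fun κ => κ ≠ Kd.K) α (R2 th Γ))
      (gT X (fun κ => κ ≠ Kd.K) (R2 th Γ)) β u' U' cnt' pt)
    (ha : ∀ r j, |∑ v, ∑ w, ind (R3 th pt Γ r v w) *
      ((if X.LE v w ∧ cl v w = j then 1 else 0) - wt j v w)| ≤
        Real.log X.d ^ 2 * Real.sqrt (∑ v, ∑ w, ind (R3 th pt Γ r v w) ^ 2))
    (hlam : 0 ≤ lam) (hlam1 : lam ≤ 1)
    (hlo : ∀ j v w, X.LE v w → (X.lab th pt v = 5 ∨ j ≠ X.lab th pt v) →
      (X.lab th pt w = 5 ∨ j ≠ X.lab th pt w) →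
      (∀ b b', X.bl v = some b → X.bl w = some b' → gr v ≠ gr w ∧
        (X.cb b = X.cb b' → (X.d : ℝ) ≤ X.e b b')) → lam ≤ wt j v w)
    (hlog : 6 ≤ Real.log X.d) (q : τ'') (f f' j : Fin 6)
    (hk : ∀ v w, Γ q v w → X.kin v f ∧ X.kin w f') (hf : f = 5 ∨ j ≠ f)
    (hf' : f' = 5 ∨ j ≠ f') :
    lam / 36 * ng (Γ q) ≤ ng (fun v w => Γ q v w ∧ X.lab th pt v = f ∧
      X.lab th pt w = f' ∧ cl v w = j) +
      Real.log X.d ^ 3 * (Real.sqrt (ng (Γ q) * Δ q) + ng (Γ q) / X.d) := by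
  have hd0 : (0 : ℝ) ≤ X.d := Nat.cast_nonneg _
  by_cases hne : ∃ v w, Γ q v w
  swap
  · have h0 : ng (Γ q) = 0 := by
      rw [ng_eq]
      refine sum_eq_zero fun v _ => sum_eq_zero fun w _ => ind_false fun h => hne ⟨v, w, h⟩
    rw [h0]
    simp only [mul_zero, zero_mul, zero_div, Real.sqrt_zero, add_zero]
    exact ng_nonneg _
  have hΔ : 1 ≤ Δ q := by
    obtain ⟨v, w, hvw⟩ := hne
    have hle := hΓ.le q v w hvw
    by_cases hv : X.bl v = none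
    · have hw : X.bl w ≠ none := fun h => hle.2 ⟨hv, h⟩
      have h1 := hΓ.d2 q w hw
      have h2 : 1 ≤ (univ.filter fun v => Γ q v w).card :=
        card_pos.2 ⟨v, mem_filter.2 ⟨mem_univ _, hvw⟩⟩
      have h3 : (1 : ℝ) ≤ ((univ.filter fun v => Γ q v w).card : ℝ) := by exact_mod_cast h2
      linarith
    · have h1 := hΓ.d1 q v hv
      have h2 : 1 ≤ (univ.filter fun w => Γ q v w).card :=
        card_pos.2 ⟨w, mem_filter.2 ⟨mem_univ _, hvw⟩⟩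
      have h3 : (1 : ℝ) ≤ ((univ.filter fun w => Γ q v w).card : ℝ) := by exact_mod_cast h2
      linarith
  have hN := ng_nonneg (Γ q)
  have hE := er_nonneg (X := X) (Γ q) (Δ q)
  have s1 := lab_step (g := 3) (by norm_num) hΓ (fun r v w (h : R1 Γ r v w) => h) h1L (q, f, f')
    (by
      change 0 ≤ Δ q
      linarith) (oC f) (oC f')
    (fun v w h => ⟨kin_C (hk v w h).1, kin_C (hk v w h).2⟩)
  have s2 := lab_step (g := 2) (by norm_num) hΓ (R2_sub th Γ) h2L (q, f, f')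
    (by
      change 0 ≤ Δ q
      linarith) (oQ f) (oQ f')
    (fun v w h => ⟨kin_Q (hk v w h.1).1, kin_Q (hk v w h.1).2⟩)
  change ng (Γ q) / ((3 : ℕ) : ℝ) ^ 2 - 4 * er X (Γ q) (Δ q) ≤ ng (R2 th Γ (q, f, f')) at s1
  change ng (R2 th Γ (q, f, f')) / ((2 : ℕ) : ℝ) ^ 2 - 4 * er X (Γ q) (Δ q) ≤
    ng (R3 th pt Γ (q, f, f')) at s2
  push_cast at s1 s2
  have s3 : ng (Γ q) / 36 - 5 * er X (Γ q) (Δ q) ≤ ng (R3 th pt Γ (q, f, f')) := by linarith
  -- the classes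
  have t1 := ha (q, f, f') j
  have t2 : ∑ v, ∑ w, ind (R3 th pt Γ (q, f, f') v w) ^ 2 = ng (R3 th pt Γ (q, f, f')) := by
    simp only [ind_sq]
    exact (ng_eq _).symm
  rw [t2] at t1
  have t3 : Real.log X.d ^ 2 * Real.sqrt (ng (R3 th pt Γ (q, f, f'))) ≤ er X (Γ q) (Δ q) := by
    unfold er
    refine mul_le_mul_of_nonneg_left ?_ (sq_nonneg _)
    have h1 : ng (R3 th pt Γ (q, f, f')) ≤ ng (Γ q) := ng_mono (R3_sub th pt Γ (q, f, f'))
    have h2 : Real.sqrt (ng (R3 th pt Γ (q, f, f'))) ≤ Real.sqrt (ng (Γ q) * Δ q) := by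
      refine Real.sqrt_le_sqrt ?_
      nlinarith
    have h3 : 0 ≤ ng (Γ q) / X.d := div_nonneg hN hd0
    linarith
  have t4 : ∑ v, ∑ w, ind (R3 th pt Γ (q, f, f') v w) *
      ((if X.LE v w ∧ cl v w = j then 1 else 0) - wt j v w) =
      ng (fun v w => Γ q v w ∧ X.lab th pt v = f ∧ X.lab th pt w = f' ∧ cl v w = j) -
      ∑ v, ∑ w, ind (R3 th pt Γ (q, f, f') v w) * wt j v w := by
    rw [← sum_ind_mul (R3 th pt Γ (q, f, f')) (fun v w => X.LE v w ∧ cl v w = j)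
      (fun v w => Γ q v w ∧ X.lab th pt v = f ∧ X.lab th pt w = f' ∧ cl v w = j),
      ← sum_sub_distrib]
    · refine sum_congr rfl fun v _ => ?_
      rw [← sum_sub_distrib]
      refine sum_congr rfl fun w _ => ?_
      rw [ite_ind, mul_sub]
    · intro v w
      rw [R3_iff q f f' hk]
      constructor
      · rintro ⟨h1, h2, h3, h4⟩
        exact ⟨⟨h1, h2, h3⟩, hΓ.le q v w h1, h4⟩
      · rintro ⟨⟨h1, h2, h3⟩, _, h4⟩
        exact ⟨h1, h2, h3, h4⟩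
  have t5 : lam * ng (R3 th pt Γ (q, f, f')) ≤
      ∑ v, ∑ w, ind (R3 th pt Γ (q, f, f') v w) * wt j v w := by
    rw [ng_eq, mul_sum]
    refine sum_le_sum fun v _ => ?_
    unfold lk
    rw [mul_sum]
    refine sum_le_sum fun w _ => ?_
    by_cases h : R3 th pt Γ (q, f, f') v w
    · rw [ind_true h, mul_one, one_mul]
      obtain ⟨h1, h2, h3⟩ := (R3_iff q f f' hk v w).1 h
      refine hlo j v w (hΓ.le q v w h1) ?_ ?_ fun b b' => hΓ.gr q v w b b' h1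
      · rw [h2]
        exact hf
      · rw [h3]
        exact hf'
    · rw [ind_false h, mul_zero, zero_mul]
  rw [t4] at t1
  have t6 := (abs_le.1 (t1.trans t3)).1
  have t7 : lam * (ng (Γ q) / 36 - 5 * er X (Γ q) (Δ q)) ≤
    lam * ng (R3 th pt Γ (q, f, f')) := mul_le_mul_of_nonneg_left s3 hlam
  have t8 : lam * (5 * er X (Γ q) (Δ q)) ≤ 1 * (5 * er X (Γ q) (Δ q)) :=
    mul_le_mul_of_nonneg_right hlam1 (by linarith)
  have t9 : 6 * er X (Γ q) (Δ q) ≤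
      Real.log X.d ^ 3 * (Real.sqrt (ng (Γ q) * Δ q) + ng (Γ q) / X.d) := by
    unfold er
    have h3 : 0 ≤ ng (Γ q) / X.d := div_nonneg hN hd0
    have h4 : 0 ≤ Real.log X.d ^ 2 * (Real.sqrt (ng (Γ q) * Δ q) + ng (Γ q) / X.d) :=
      mul_nonneg (sq_nonneg _) (add_nonneg (Real.sqrt_nonneg _) h3)
    calc 6 * (Real.log X.d ^ 2 * (Real.sqrt (ng (Γ q) * Δ q) + ng (Γ q) / X.d))
        ≤ Real.log X.d * (Real.log X.d ^ 2 * (Real.sqrt (ng (Γ q) * Δ q) + ng (Γ q) / X.d)) :=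
          mul_le_mul_of_nonneg_right hlog h4
      _ = _ := by ring
  linarith

/-- the tests of the rounding -/
theorem a_sp (hΓ : GamH X gr A Γ Δ) (hd : 73 ≤ X.d) (r : Ix τ'') :
    ((univ.filter fun p : W × W => ind (R3 th pt Γ r p.1 p.2) ≠ 0).card : ℝ) ≤
      (X.d : ℝ) ^ (A + 1) := by
  have h1 : ((univ.filter fun p : W × W => ind (R3 th pt Γ r p.1 p.2) ≠ 0).card : ℝ) ≤
      ng (R3 th pt Γ r) := by
    unfold ng
    refine Nat.cast_le.2 (card_le_card ?_)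
    intro p hp
    exact mem_filter.2 ⟨mem_univ _, ind_ne (mem_filter.1 hp).2⟩
  have h2 := sp_R hΓ (R3_sub th pt Γ) r
  have h3 := pow_up' X.d A hd 1 (by norm_num)
  linarith

theorem a_mu (hΓ : GamH X gr A Γ Δ) (hd : 73 ≤ X.d) (v w : W) :
    ((univ.filter fun r => ind (R3 th pt Γ r v w) ≠ 0).card : ℝ) ≤ (X.d : ℝ) ^ (A + 1) := by
  have h1 : ((univ.filter fun r => ind (R3 th pt Γ r v w) ≠ 0).card : ℝ) ≤
      ((univ.filter fun r => ∃ w, R3 th pt Γ r v w ∨ R3 th pt Γ r w v).card : ℝ) := by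
    refine Nat.cast_le.2 (card_le_card ?_)
    intro r hr
    exact mem_filter.2 ⟨mem_univ _, w, Or.inl (ind_ne (mem_filter.1 hr).2)⟩
  have h2 := mu_R hΓ (R3_sub th pt Γ) v
  have h3 := pow_up' X.d A hd 36 (by norm_num)
  linarith

end sh

end Pool.Agent.Work.MP_db9399_ts.helper26
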