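import Pool.Agent.Work.MP_db9399_ts_helper26.Lg6

/-!
# MP_db9399, TSPLIT, block LGT: numbers, monotonicity, functionals (helper26)
-/

set_option autoImplicit false

namespace Pool.Agent.Work.MP_db9399_ts.helper26

open Finset Classical
open Pool.Agent.Work.MP_db9399_all (nb)
open Pool.Agent.Work.MP_db9399_clj.helper75 (OO blk nB eE)
open Pool.Agent.Work.MP_db9399_ts

universe u

section num
open Filter

theorem num (c C η : ℝ) (M : ℕ) (hc : 0 < c) (hc1 : c ≤ 1 / 100) (hη : 0 < η) :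
    ∃ d0 : ℕ, ∀ d : ℕ, d0 ≤ d → 73 ≤ d ∧ 6 ≤ Real.log d ∧ (d : ℝ) ^ (-(c / 60)) ≤ η / 40 ∧
      200 * ((M : ℝ) + 1) + 10 * (d : ℝ) ^ (1 / 6 : ℝ) ≤ (d : ℝ) ^ (1 / 4 : ℝ) ∧
      (d : ℝ) ^ (-(1 / 4) : ℝ) + 5 * ((C + 1) * (d : ℝ) ^ (-(c / 30))) ≤
        (d : ℝ) ^ (-(c / 40)) := by
  have hN : Tendsto (fun d : ℕ => (d : ℝ)) atTop atTop := tendsto_natCast_atTop_atTop
  have e1 : ∀ᶠ d : ℕ in atTop, 73 ≤ d := eventually_ge_atTop 73
  have e2 : ∀ᶠ d : ℕ in atTop, 6 ≤ Real.log d :=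
    (Real.tendsto_log_atTop.comp hN).eventually_ge_atTop 6
  have e3 : ∀ᶠ d : ℕ in atTop, (d : ℝ) ^ (-(c / 60)) ≤ η / 40 :=
    ((tendsto_rpow_neg_atTop (by linarith : 0 < c / 60)).comp hN).eventually_le_const
      (by linarith)
  have e4 : ∀ᶠ d : ℕ in atTop, 200 * ((M : ℝ) + 1) + 10 ≤ (d : ℝ) ^ (1 / 12 : ℝ) :=
    ((tendsto_rpow_atTop (by norm_num : (0 : ℝ) < 1 / 12)).comp hN).eventually_ge_atTop _
  have e5 : ∀ᶠ d : ℕ in atTop, (d : ℝ) ^ (-(1 / 4 - c / 40)) ≤ 1 / 2 :=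
    ((tendsto_rpow_neg_atTop (by linarith : 0 < 1 / 4 - c / 40)).comp hN).eventually_le_const
      (by norm_num)
  have e6 : ∀ᶠ d : ℕ in atTop, (d : ℝ) ^ (-(c / 120)) ≤ 1 / (10 * (|C| + 2)) :=
    ((tendsto_rpow_neg_atTop (by linarith : 0 < c / 120)).comp hN).eventually_le_const
      (by
        have := abs_nonneg C
        positivity)
  obtain ⟨d0, h0⟩ := eventually_atTop.1 (e1.and (e2.and (e3.and (e4.and (e5.and e6)))))
  refine ⟨d0, fun d hd => ?_⟩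
  obtain ⟨h1, h2, h3, h4, h5, h6⟩ := h0 d hd
  have hd1 : (1 : ℝ) ≤ d := by
    have : (73 : ℝ) ≤ d := by exact_mod_cast h1
    linarith
  have hd0 : (0 : ℝ) < d := by linarith
  refine ⟨h1, h2, h3, ?_, ?_⟩
  · have p1 : (1 : ℝ) ≤ (d : ℝ) ^ (1 / 6 : ℝ) := Real.one_le_rpow hd1 (by norm_num)
    have p2 : (d : ℝ) ^ (1 / 4 : ℝ) = (d : ℝ) ^ (1 / 6 : ℝ) * (d : ℝ) ^ (1 / 12 : ℝ) := by
      rw [← Real.rpow_add hd0]
      norm_num
    rw [p2]
    have p3 : (0 : ℝ) ≤ M := Nat.cast_nonneg _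
    nlinarith
  · have p0 : (0 : ℝ) < (d : ℝ) ^ (-(c / 40)) := Real.rpow_pos_of_pos hd0 _
    have p1 : (d : ℝ) ^ (-(1 / 4) : ℝ) =
        (d : ℝ) ^ (-(c / 40)) * (d : ℝ) ^ (-(1 / 4 - c / 40)) := by
      rw [← Real.rpow_add hd0]
      congr 1
      ring
    have p2 : (d : ℝ) ^ (-(c / 30)) = (d : ℝ) ^ (-(c / 40)) * (d : ℝ) ^ (-(c / 120)) := by
      rw [← Real.rpow_add hd0]
      congr 1
      ring
    have p3 : 5 * ((C + 1) * (d : ℝ) ^ (-(c / 120))) ≤ 1 / 2 := by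
      have q1 := le_abs_self C
      have q2 := abs_nonneg C
      have q3 : 0 ≤ (d : ℝ) ^ (-(c / 120)) := Real.rpow_nonneg hd0.le _
      have q4 : (C + 1) * (d : ℝ) ^ (-(c / 120)) ≤ (|C| + 2) * (1 / (10 * (|C| + 2))) := by
        calc (C + 1) * (d : ℝ) ^ (-(c / 120)) ≤ (|C| + 2) * (d : ℝ) ^ (-(c / 120)) :=
              mul_le_mul_of_nonneg_right (by linarith) q3
          _ ≤ _ := mul_le_mul_of_nonneg_left h6 (by linarith)
      have q5 : (|C| + 2) * (1 / (10 * (|C| + 2))) = 1 / 10 := by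
        have : |C| + 2 ≠ 0 := by linarith
        field_simp
      rw [q5] at q4
      linarith
    rw [p1, p2]
    have p4 : (d : ℝ) ^ (-(c / 40)) * (d : ℝ) ^ (-(1 / 4 - c / 40)) +
        5 * ((C + 1) * ((d : ℝ) ^ (-(c / 40)) * (d : ℝ) ^ (-(c / 120)))) =
        (d : ℝ) ^ (-(c / 40)) * ((d : ℝ) ^ (-(1 / 4 - c / 40)) +
          5 * ((C + 1) * (d : ℝ) ^ (-(c / 120)))) := by ring
    rw [p4]
    calc _ ≤ (d : ℝ) ^ (-(c / 40)) * 1 := mul_le_mul_of_nonneg_left (by linarith) p0.le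
      _ = _ := mul_one _

end num

section misc
variable {W B : Type u} [Fintype W] [Fintype B] {X : Dat W B}

theorem Env.mono' {M : ℕ} {C ζ θ ζ' θ' c : ℝ} (h : Env X M C ζ θ c) (hζ : ζ ≤ ζ')
    (hθ : θ ≤ θ') : Env X M C ζ' θ' c :=
  { h with
    thn := fun v hv => (h.thn v hv).trans
      (mul_le_mul_of_nonneg_right hζ (Nat.cast_nonneg _))
    v0c := fun q => (h.v0c q).trans (mul_le_mul_of_nonneg_right hθ (Nat.cast_nonneg _)) }

/-- the largest thin degree in a block -/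
noncomputable def tM (X : Dat W B) (b : B) : ℝ :=
  (((blk X.bl b).sup fun v => (nb X.Th v).card : ℕ) : ℝ)

theorem td_tM (v : W) (b : B) (h : X.bl v = some b) : X.td v ≤ tM X b := by
  unfold Dat.td tM
  have hv : v ∈ blk X.bl b := by simpa [blk] using h
  exact_mod_cast le_sup (f := fun v => (nb X.Th v).card) hv

theorem tM_le (b : B) (hne : (blk X.bl b).Nonempty) (z : ℝ)
    (h : ∀ v, X.bl v = some b → X.td v ≤ z) : tM X b ≤ z := by
  obtain ⟨v, hv, h1⟩ := exists_mem_eq_sup (blk X.bl b) hne fun v => (nb X.Th v).card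
  unfold tM
  rw [h1]
  exact h v (by simpa [blk] using hv)

/-- the functionals of the second call -/
noncomputable def uF (X : Dat W B) (wC : Fin 3 → W → W → ℝ) (l : Fin 4) (v : W) : ℝ :=
  if h : l.val < 3 then ∑ w, wC ⟨l.val, h⟩ v w else X.td v

/-- their bounds -/
noncomputable def UF (X : Dat W B) (z : ℝ) (l : Fin 4) (b : B) : ℝ :=
  if l.val < 3 then z else tM X b

theorem uF_C (wC : Fin 3 → W → W → ℝ) (k : Fin 3) (v : W) :
    uF X wC k.castSucc v = ∑ w, wC k v w := by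
  unfold uF
  rw [dif_pos (show (k.castSucc : Fin 4).val < 3 from k.2)]
  rfl

theorem uF_3 (wC : Fin 3 → W → W → ℝ) (v : W) : uF X wC 3 v = X.td v := by
  unfold uF
  rw [dif_neg]
  exact (by decide : ¬ ((3 : Fin 4).val < 3))

theorem UF_C (z : ℝ) (k : Fin 3) (b : B) : UF X z k.castSucc b = z := by
  unfold UF
  rw [if_pos (show (k.castSucc : Fin 4).val < 3 from k.2)]

theorem UF_3 (z : ℝ) (b : B) : UF X z 3 b = tM X b := by
  unfold UF
  rw [if_neg]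
  exact (by decide : ¬ ((3 : Fin 4).val < 3))

/-- row sums of weights -/
theorem row_bd {wt : W → W → ℝ} (h0 : ∀ v w, 0 ≤ wt v w) (h1 : ∀ v w, wt v w ≤ 40)
    (h2 : ∀ v w, wt v w ≠ 0 → X.LE v w) (v : W) (hv : X.bl v ≠ none) :
    |∑ w, wt v w| ≤ 40 * X.td v := by
  rw [abs_of_nonneg (sum_nonneg fun w _ => h0 v w), ← td_eq v hv, mul_sum]
  refine sum_le_sum fun w _ => ?_
  by_cases h : X.LE v w
  · rw [ind_true h, mul_one]
    exact h1 v w
  · rw [ind_false h, mul_zero]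
    by_contra hn
    push Not at hn
    exact h (h2 v w (ne_of_gt hn))

theorem u0_F {M : ℕ} {C ζ θ c : ℝ} (hE : Env X M C ζ θ c) {wC : Fin 3 → W → W → ℝ}
    (h0 : ∀ k v w, 0 ≤ wC k v w) (h1 : ∀ k v w, wC k v w ≤ 40)
    (h2 : ∀ k v w, wC k v w ≠ 0 → X.LE v w) (l : Fin 4) (v : W) (b : B)
    (hb : X.bl v = some b) : |uF X wC l v| ≤ UF X (40 * (ζ * X.d)) l b := by
  have hv : X.bl v ≠ none := by
    rw [hb]
    exact Option.some_ne_none _
  unfold uF UF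
  by_cases h : l.val < 3
  · rw [dif_pos h, if_pos h]
    refine (row_bd (h0 ⟨l.val, h⟩) (h1 ⟨l.val, h⟩) (h2 ⟨l.val, h⟩) v hv).trans ?_
    have := hE.thn v hv
    linarith
  · rw [dif_neg h, if_neg h, abs_of_nonneg (Nat.cast_nonneg _)]
    exact td_tM v b hb

/-- the shares of the classes -/
theorem sh_sig {πk : ℝ} {d : ℕ} {D : Fin 6 → ℕ} {σ : Fin 6 → ℝ} (hd : 0 < d)
    (h : ShC πk d D σ) : Sh σ (σ (cC 0)) (σ (cQ 0)) := by
  have hd' : (0 : ℝ) < d := by exact_mod_cast hd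
  have key : ∀ i j, D i = D j → σ i = σ j := by
    intro i j hij
    have h1 := h.s i
    have h2 := h.s j
    rw [hij] at h1
    exact mul_right_cancel₀ hd'.ne' (h1.symm.trans h2)
  have hC : ∀ k, σ (cC k) = σ (cC 0) := fun k => key _ _ (h.eC k 0)
  have hQ : ∀ k, σ (cQ k) = σ (cQ 0) := fun k => key _ _ (h.eQ k 0)
  refine ⟨hC, hQ, ?_⟩
  have h1 : ∑ j, σ j = 1 := by
    have h2 : (∑ j, σ j) * d = d := by
      rw [sum_mul]
      have h3 : ((∑ j, D j : ℕ) : ℝ) = d := by exact_mod_cast h.sum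
      push_cast at h3
      rw [← h3]
      exact sum_congr rfl fun j _ => by rw [h3]; exact (h.s j).symm
    have h4 : (∑ j, σ j) * d = 1 * d := by rw [h2, one_mul]
    exact mul_right_cancel₀ hd'.ne' h4
  rw [sum6] at h1
  simp only [hC, hQ] at h1
  rw [sum_const, sum_const, card_univ, card_univ, Fintype.card_fin, Fintype.card_fin,
    nsmul_eq_mul, nsmul_eq_mul] at h1
  push_cast at h1
  linarith

/-- shares of the labels -/
theorem lab_lin {τ : Type u} {g : ℕ} (hg : 2 ≤ g) (Ty : Kd → Prop) (L : W → Fin g) (k : Fin g)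
    (α : τ → W → ℝ) (q : τ) (E : ℝ)
    (h : |∑ v with X.ty Ty v, α q v * (X.mv Ty L k v - 1)| ≤ E) :
    |∑ v with X.ty Ty v, α q v * (ind (L v = k) - 1 / g)| ≤ E := by
  have hg' : (2 : ℝ) ≤ g := by exact_mod_cast hg
  have h0 : 0 ≤ ((g : ℝ) - 1) / g := div_nonneg (by linarith) (by linarith)
  have h1 : ((g : ℝ) - 1) / g ≤ 1 := by
    rw [div_le_one (by linarith)]
    linarith
  have e : ∑ v with X.ty Ty v, α q v * (ind (L v = k) - 1 / g) =
      -(((g : ℝ) - 1) / g * ∑ v with X.ty Ty v, α q v * (X.mv Ty L k v - 1)) := by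
    rw [mul_sum, ← sum_neg_distrib]
    refine sum_congr rfl fun v hv => ?_
    rw [ind_lab hg X Ty L k v (mem_filter.1 hv).2]
    ring
  rw [e, abs_neg, abs_mul, abs_of_nonneg h0]
  calc _ ≤ 1 * |∑ v with X.ty Ty v, α q v * (X.mv Ty L k v - 1)| :=
        mul_le_mul_of_nonneg_right h1 (abs_nonneg _)
    _ ≤ E := by linarith

end misc

end Pool.Agent.Work.MP_db9399_ts.helper26
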